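import Pool.Agent.Y616.QI.Ln

/-!
# The bound for one level, with explicit parameters
-/

set_option autoImplicit false
set_option linter.unusedSectionVars false

namespace Pool.Agent.Y616.QI

open Finset H568R2 Pool.Agent.NPC Pool.Agent.H676 Pool.Agent.H620R2.Gauge Pool.Agent.W911.IB

/-- the number of undecided bits which suffices -/
def need (t K k : ℕ) : ℕ :=
  (2 * K + 2) * (2 * (32 * t * K ^ 2) ^ k * ((2 * K + 2) * t + (2 * K + 2) + 5) + 1) + 1

theorem lvl_eq {N n : ℕ} (hN : 2 ^ (n + 1) ≤ N) :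
    lvl N n = (Finset.range (2 ^ n)).image (fun j => pos hN j) := by
  ext i
  rw [lvl, Finset.mem_filter, Finset.mem_image]
  constructor
  · rintro ⟨_, hi⟩
    obtain ⟨j, hj, hji⟩ := exists_bitsOf (str i)
    rw [hi] at hj hji
    refine ⟨j, Finset.mem_range.2 hj, ?_⟩
    apply Fin.ext
    show idx (bitsOf n j) = i
    rw [hji, idx_str]
  · rintro ⟨j, _, rfl⟩
    exact ⟨Finset.mem_univ _, by rw [str_pos, length_bitsOf]⟩

theorem bnd_q {t K : ℕ} (ht : 1 ≤ t) (hK : 1 ≤ K) :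
    4 * (t : ℝ) * (gam (1 / (32 * t * K ^ 2)) K * K) ≤ 1 / 2 := by
  have htR : (1 : ℝ) ≤ (t : ℝ) := by exact_mod_cast ht
  have hKR : (1 : ℝ) ≤ (K : ℝ) := by exact_mod_cast hK
  set q : ℝ := 1 / (32 * t * K ^ 2) with hq
  have hq0 : 0 < q := by positivity
  have h32 : (32 : ℝ) ≤ 32 * t * K ^ 2 := by
    have h2 : (1 : ℝ) ≤ t * K ^ 2 := by nlinarith
    nlinarith
  have hq1 : q ≤ 1 / 32 := by
    rw [hq]
    exact one_div_le_one_div_of_le (by norm_num) h32
  have hq2 : q / (1 - q) ≤ 2 * q := by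
    rw [div_le_iff₀ (by linarith)]
    nlinarith
  have hqt : 16 * t * K ^ 2 * q = 1 / 2 := by
    rw [hq]
    field_simp
    norm_num
  unfold gam
  calc 4 * (t : ℝ) * ((1 + K) * (q / (1 - q)) * K) ≤ 4 * t * ((2 * K) * (2 * q) * K) := by
        have h3 : (1 + (K : ℝ)) * (q / (1 - q)) ≤ (2 * K) * (2 * q) :=
          mul_le_mul (by linarith) hq2 (div_nonneg hq0.le (by linarith)) (by linarith)
        have h4 : (1 + (K : ℝ)) * (q / (1 - q)) * K ≤ (2 * K) * (2 * q) * K :=
          mul_le_mul_of_nonneg_right h3 (by linarith)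
        exact mul_le_mul_of_nonneg_left h4 (by linarith)
    _ = 16 * t * K ^ 2 * q := by ring
    _ = 1 / 2 := hqt

open Classical in
theorem ccn_bound (M : Alg) (p : Polynomial ℕ) (k : ℕ) {N n : ℕ} (hN : 2 ^ (n + 1) ≤ N)
    (hn : 1 ≤ n) {K : ℕ} (hK : 1 ≤ K) {w : (Fin N → Bool) → ℝ} (hw : ∀ a, 0 ≤ w a)
    {r : Fin N → Bool → ℝ} {e : Fin N → ℝ}
    (hr : ∀ i ∈ lvl N n, ∀ b, 0 ≤ r i b ∧ r i b ≤ 1)
    (he : ∀ i ∈ lvl N n, ∀ b, 0 ≤ e i ∧ e i ≤ r i b)
    (hc : ∀ i ∈ lvl N n, ∀ a b, w (Function.update a i b) * r i b ≤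
      K * (w (Function.update a i (!b)) * r i (!b)))
    (hdev : (need ((Tp M p k).eval n) K k : ℝ) ≤ ∑ i ∈ lvl N n, e i) :
    ∑ a, w a * (if orc N a ∈ CCn M p k n then (1 : ℝ) else 0) ≤ 3 / 4 * ∑ a, w a := by
  set t : ℕ := (Tp M p k).eval n with ht
  have hT := eval_Tp M p k n
  rw [← ht] at hT
  have ht5 : k + 5 ≤ t := by omega
  have ht1 : 1 ≤ t := by omega
  have htR : (1 : ℝ) ≤ (t : ℝ) := by exact_mod_cast ht1
  have hKR : (1 : ℝ) ≤ (K : ℝ) := by exact_mod_cast hK
  set q : ℝ := 1 / (32 * t * K ^ 2) with hq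
  have hq0 : 0 < q := by positivity
  have h32 : (32 : ℝ) ≤ 32 * t * K ^ 2 := by
    have h2 : (1 : ℝ) ≤ t * K ^ 2 := by nlinarith
    nlinarith
  have hq1 : q ≤ 1 / 32 := by
    rw [hq]
    exact one_div_le_one_div_of_le (by norm_num) h32
  set m' : ℕ := 2 * K + 2 with hm'
  set θ : ℝ := 2 * (32 * t * K ^ 2) ^ k * (m' * t + m' + 5) with hθ
  have hθ0 : 0 ≤ θ := by positivity
  -- the segments
  let c : ℕ → ℝ := fun j => if j < 2 ^ n then e (pos hN j) else 0
  have hc0 : ∀ j, 0 ≤ c j := by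
    intro j
    show 0 ≤ if j < 2 ^ n then e (pos hN j) else 0
    split_ifs
    · exact (he _ (pos_lvl hN j) true).1
    · exact le_refl _
  have hc1 : ∀ j, c j ≤ 1 := by
    intro j
    show (if j < 2 ^ n then e (pos hN j) else 0) ≤ 1
    split_ifs
    · exact (he _ (pos_lvl hN j) true).2.trans (hr _ (pos_lvl hN j) true).2
    · norm_num
  have hsum : ∑ i ∈ lvl N n, e i = ∑ j ∈ Finset.range (2 ^ n), c j := by
    rw [lvl_eq hN, Finset.sum_image]
    · refine Finset.sum_congr rfl fun j hj => ?_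
      show _ = if j < 2 ^ n then e (pos hN j) else 0
      rw [if_pos (Finset.mem_range.1 hj)]
    · intro j hj j' hj' h
      rw [Finset.mem_coe, Finset.mem_range] at hj hj'
      exact pos_inj hN hj hj' h
  have hneed : (need t K k : ℝ) = m' * (θ + 1) + 1 := by
    unfold need
    rw [← hm', hθ]
    push_cast
    ring
  have hB : (m' : ℝ) * (θ + 1) ≤ ∑ j ∈ Finset.range (2 ^ n - 1), c j := by
    have h2 : ∑ j ∈ Finset.range (2 ^ n), c j =
        ∑ j ∈ Finset.range (2 ^ n - 1), c j + c (2 ^ n - 1) := by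
      have h3 : 2 ^ n = (2 ^ n - 1) + 1 := by
        have : 0 < 2 ^ n := by positivity
        omega
      conv_lhs => rw [h3]
      exact Finset.sum_range_succ _ _
    have h4 := hc1 (2 ^ n - 1)
    rw [hneed, hsum, h2] at hdev
    linarith
  obtain ⟨v, hv1, hv2, hv3⟩ := segments c hc0 hc1 (2 ^ n - 1) m' hθ0 hB
  have hvlt : ∀ l ≤ m', v l < 2 ^ n := by
    intro l hl
    have h2 := hv1 l hl
    have : 0 < 2 ^ n := by positivity
    omega
  have hvmono : ∀ l l' : ℕ, l ≤ l' → l' ≤ m' → v l ≤ v l' := by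
    intro l l' h
    induction h with
    | refl => exact fun _ => le_rfl
    | @step l'' _ ih => exact fun h2 => (ih (by omega)).trans (hv2 l'' (by omega))
  let J : ℕ → Finset (Fin N) := fun l => (Finset.Ico (v l) (v (l + 1))).image (fun j => pos hN j)
  have hJ : ∀ l < m', θ ≤ ∑ i ∈ J l, e i := by
    intro l hl
    refine (hv3 l hl).trans (le_of_eq ?_)
    show _ = ∑ i ∈ (Finset.Ico (v l) (v (l + 1))).image (fun j => pos hN j), e i
    rw [Finset.sum_image]
    · refine Finset.sum_congr rfl fun j hj => ?_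
      show (if j < 2 ^ n then e (pos hN j) else 0) = _
      rw [Finset.mem_Ico] at hj
      have := hvlt (l + 1) hl
      rw [if_pos (by omega)]
    · intro j hj j' hj' h
      rw [Finset.mem_coe, Finset.mem_Ico] at hj hj'
      have := hvlt (l + 1) hl
      exact pos_inj hN (by omega) (by omega) h
  have h1 := level ht1 hq0.le (by linarith : q < 1) hKR hw hr he hc (p.eval n) (leaf M N) k n (by
    intro y hy
    rw [← eval_Lp] at hy
    refine (dtr_out M N y).mono ?_
    have := eval_mono M.p hy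
    omega) m' (fun l => bitsOf n (v (l + 1))) (fun l => by rw [length_bitsOf])
    (fun l a => decide (bitsOf n (v (l + 1)) ∈ LA (orc N a))) J (by
      intro l hl i hi
      obtain ⟨j, _, rfl⟩ := Finset.mem_image.1 hi
      exact pos_lvl hN j) (by
      intro l hl a i hi
      obtain ⟨j, hj, rfl⟩ := Finset.mem_image.1 hi
      rw [Finset.mem_Ico] at hj
      exact LA_flip hN hn (hvlt (l + 1) hl) a hj.2) (by
      intro l hl l' hl' a i hi
      obtain ⟨j, hj, rfl⟩ := Finset.mem_image.1 hi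
      rw [Finset.mem_Ico] at hj
      have h2 := hvmono (l' + 1) l (by omega) hl.le
      have h3 := hvlt (l + 1) hl
      exact LA_keep hN hn (hvlt (l' + 1) (by omega)) a (by omega) (by omega) _) hJ
  have hW : 0 ≤ ∑ a, w a := Finset.sum_nonneg fun a _ => hw a
  have h2 : ∑ a, w a * (if orc N a ∈ CCn M p k n then (1 : ℝ) else 0) ≤
      ∑ a, w a * (if ∀ l < m', QF (p.eval n) (leaf M N) k true (bitsOf n (v (l + 1))) a =
        decide (bitsOf n (v (l + 1)) ∈ LA (orc N a)) then (1 : ℝ) else 0) := by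
    refine Finset.sum_le_sum fun a _ => mul_le_mul_of_nonneg_left ?_ (hw a)
    by_cases h3 : orc N a ∈ CCn M p k n
    · rw [if_pos h3, if_pos]
      intro l hl
      exact ccn_qf M p k a h3 (hvlt (l + 1) hl)
    · rw [if_neg h3]
      split_ifs <;> norm_num
  refine h2.trans (h1.trans (mul_le_mul_of_nonneg_right ?_ hW))
  rw [← eval_Lp]
  have e1 : 4 * (t : ℝ) * (gam q K * K) ≤ 1 / 2 := by
    have := bnd_q ht1 hK
    rw [← hq] at this
    exact this
  have e0 : 0 ≤ 4 * (t : ℝ) * (gam q K * K) := by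
    unfold gam
    have h3 : 0 ≤ q / (1 - q) := div_nonneg hq0.le (by linarith)
    positivity
  have e2 : (k : ℝ) * 2 ^ ((Lp p k).eval n + 2) * (4 * t * (gam q K * K)) ^ (t + 1) ≤ 1 / 16 := by
    have h2 : (4 * t * (gam q K * K)) ^ (t + 1) ≤ (1 / 2 : ℝ) ^ ((Lp p k).eval n + 2 + k + 4) :=
      (pow_le_pow_left₀ e0 e1 _).trans
        (pow_le_pow_of_le_one (by norm_num) (by norm_num) (by omega))
    have h3 : (k : ℝ) * (1 / 2) ^ k ≤ 1 := by
      have h4 : (k : ℝ) ≤ 2 ^ k := by exact_mod_cast (Nat.lt_two_pow_self (n := k)).le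
      rw [one_div, inv_pow]
      rw [← div_eq_mul_inv, div_le_one (by positivity)]
      exact h4
    calc (k : ℝ) * 2 ^ ((Lp p k).eval n + 2) * (4 * t * (gam q K * K)) ^ (t + 1)
        ≤ (k : ℝ) * 2 ^ ((Lp p k).eval n + 2) * (1 / 2) ^ ((Lp p k).eval n + 2 + k + 4) :=
          mul_le_mul_of_nonneg_left h2 (by positivity)
      _ = ((k : ℝ) * (1 / 2) ^ k) * ((2 * (1 / 2)) ^ ((Lp p k).eval n + 2) * (1 / 2) ^ 4) := by
          rw [mul_pow, pow_add (1 / 2 : ℝ) ((Lp p k).eval n + 2 + k) 4,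
            pow_add (1 / 2 : ℝ) ((Lp p k).eval n + 2) k]
          ring
      _ ≤ 1 * ((2 * (1 / 2)) ^ ((Lp p k).eval n + 2) * (1 / 2) ^ 4) :=
          mul_le_mul_of_nonneg_right h3 (by positivity)
      _ = 1 / 16 := by norm_num
  have e3 : q ^ k / 2 * θ = m' * t + m' + 5 := by
    have h5 : (q ^ k) * ((32 * (t : ℝ) * K ^ 2) ^ k) = 1 := by
      rw [← mul_pow, hq, one_div, inv_mul_cancel₀ (by positivity), one_pow]
    calc q ^ k / 2 * θ = (q ^ k * (32 * (t : ℝ) * K ^ 2) ^ k) * (m' * t + m' + 5) := by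
          rw [hθ]; ring
      _ = _ := by rw [h5, one_mul]
  have h8 : (2 : ℝ) ≤ Real.exp 1 := by
    have := Real.add_one_le_exp (1 : ℝ)
    linarith
  have e4 : (m' : ℝ) * (2 ^ (m' * t) * Real.exp (-(q ^ k / 2 * θ))) ≤ 1 / 16 := by
    rw [e3]
    have h9 : (2 : ℝ) ^ (m' * t) ≤ Real.exp ((m' : ℝ) * t) := by
      have := pow_le_pow_left₀ (by norm_num) h8 (m' * t)
      rw [← Real.exp_nat_mul, mul_one] at this
      push_cast at this
      exact this
    have h10 : (16 : ℝ) ≤ Real.exp 5 := by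
      have h12 : Real.exp 5 = Real.exp 1 ^ 5 := by
        rw [← Real.exp_nat_mul]; norm_num
      rw [h12]
      have := pow_le_pow_left₀ (by norm_num) h8 5
      norm_num at this
      linarith
    have h13 : (m' : ℝ) ≤ Real.exp m' := by
      have := Real.add_one_le_exp (m' : ℝ)
      linarith
    calc (m' : ℝ) * (2 ^ (m' * t) * Real.exp (-((m' : ℝ) * t + m' + 5)))
        ≤ Real.exp m' * (Real.exp ((m' : ℝ) * t) * Real.exp (-((m' : ℝ) * t + m' + 5))) := by
          refine mul_le_mul h13 (mul_le_mul_of_nonneg_right h9 (Real.exp_pos _).le)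
            (by positivity) (Real.exp_pos _).le
      _ = Real.exp (-5) := by
          rw [← Real.exp_add, ← Real.exp_add]; congr 1; ring
      _ = 1 / Real.exp 5 := by rw [Real.exp_neg, one_div]
      _ ≤ 1 / 16 := one_div_le_one_div_of_le (by norm_num) h10
  have e5 : ((K : ℝ) / (K + 1)) ^ m' ≤ 1 / 4 := by
    have h5 : (K : ℝ) / (K + 1) ≤ Real.exp (-(1 / (K + 1))) := by
      have h6 := Real.add_one_le_exp (-(1 / ((K : ℝ) + 1)))
      have h7 : (K : ℝ) / (K + 1) = -(1 / (K + 1)) + 1 := by field_simp; ring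
      rw [h7]
      exact h6
    have h6 : ((K : ℝ) / (K + 1)) ^ m' ≤ Real.exp (-(1 / (K + 1))) ^ m' :=
      pow_le_pow_left₀ (by positivity) h5 _
    rw [← Real.exp_nat_mul] at h6
    have h7 : (m' : ℝ) * -(1 / (K + 1)) = -2 := by
      rw [hm']
      push_cast
      field_simp
    rw [h7] at h6
    refine h6.trans ?_
    have h9 : Real.exp (-2) = 1 / Real.exp 1 ^ 2 := by
      rw [Real.exp_neg, ← Real.exp_nat_mul, one_div]
      norm_num
    rw [h9]
    apply one_div_le_one_div_of_le (by norm_num)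
    nlinarith
  linarith

end Pool.Agent.Y616.QI
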