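import Pool.Agent.Y616.QI.Fl

/-!
# The number of free positions; the first stage
-/

set_option autoImplicit false
set_option linter.unusedSectionVars false

namespace Pool.Agent.Y616.QI

open Finset H568R2 Pool.Agent.H676 Pool.Agent.H620R2.Gauge

section

variable {I : Type*} [Fintype I] [DecidableEq I]

theorem prod_ite_pow (D J : Finset I) (x : ℝ) :
    ∏ i ∈ D, (if i ∈ J then x else 1) = x ^ (D ∩ J).card := by
  rw [Finset.prod_ite, Finset.prod_const_one, mul_one, Finset.prod_const, Finset.filter_mem_eq_inter]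

theorem pr_pow (q x : ℝ) (D J : Finset I) :
    ∑ D' ∈ D.powerset, pr q D D' * x ^ (D' ∩ J).card = (1 - q * (1 - x)) ^ (D ∩ J).card := by
  have h1 := Finset.prod_add (fun i => q * (if i ∈ J then x else 1)) (fun _ => 1 - q) D
  have h2 : ∏ i ∈ D, (q * (if i ∈ J then x else 1) + (1 - q)) =
      (1 - q * (1 - x)) ^ (D ∩ J).card := by
    rw [← prod_ite_pow]
    refine Finset.prod_congr rfl fun i _ => ?_
    split_ifs <;> ring
  rw [← h2, h1]
  refine Finset.sum_congr rfl fun D' hD' => ?_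
  rw [Finset.prod_mul_distrib, prod_ite_pow, Finset.prod_const, Finset.prod_const,
    Finset.card_sdiff_of_subset (Finset.mem_powerset.1 hD')]
  unfold pr
  ring

theorem iter_pow (q : ℝ) (u : Finset I → (I → Bool) → ℝ) (J : Finset I) (k : ℕ) : ∀ x : ℝ,
    ∑ D', ∑ a, (thin q)^[k] u D' a * x ^ (D' ∩ J).card =
      ∑ D, ∑ a, u D a * (1 - q ^ k * (1 - x)) ^ (D ∩ J).card := by
  induction k with
  | zero => intro x; simp
  | succ k ih =>
    intro x
    have h := thin_sum q ((thin q)^[k] u) (fun D' _ => x ^ (D' ∩ J).card)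
    simp only [pr_pow] at h
    have h2 : ∑ D', ∑ a, (thin q)^[k + 1] u D' a * x ^ (D' ∩ J).card =
        ∑ D', ∑ a, thin q ((thin q)^[k] u) D' a * x ^ (D' ∩ J).card := by
      refine Finset.sum_congr rfl fun D _ => Finset.sum_congr rfl fun a _ => ?_
      rw [Function.iterate_succ_apply']
    rw [h2, h, ih]
    refine Finset.sum_congr rfl fun D _ => Finset.sum_congr rfl fun a _ => ?_
    congr 2
    ring

theorem iter_marg (q : ℝ) (u : Finset I → (I → Bool) → ℝ) (φ : (I → Bool) → ℝ) (k : ℕ) :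
    ∑ D', ∑ a, (thin q)^[k] u D' a * φ a = ∑ D, ∑ a, u D a * φ a := by
  induction k with
  | zero => rfl
  | succ k ih =>
    have h := thin_sum q ((thin q)^[k] u) (fun _ a => φ a)
    have h3 : ∀ D : Finset I, ∀ a, ∑ D' ∈ D.powerset, pr q D D' * φ a = φ a := by
      intro D a
      rw [← Finset.sum_mul, pr_sum, one_mul]
    simp only [h3] at h
    rw [← ih, ← h]
    refine Finset.sum_congr rfl fun D _ => Finset.sum_congr rfl fun a _ => ?_
    rw [Function.iterate_succ_apply']

/-- The first choice of the free positions: position `i` in `S` is free with probability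
`r i (a i)`. -/
noncomputable def u0 (w : (I → Bool) → ℝ) (S : Finset I) (r : I → Bool → ℝ) (D : Finset I)
    (a : I → Bool) : ℝ :=
  if D ⊆ S then w a * ((∏ i ∈ D, r i (a i)) * ∏ i ∈ S \ D, (1 - r i (a i))) else 0

theorem u0_sum (w : (I → Bool) → ℝ) (S : Finset I) (r : I → Bool → ℝ) (φ : (I → Bool) → ℝ)
    (J : Finset I) (x : ℝ) :
    ∑ D, ∑ a, u0 w S r D a * (φ a * x ^ (D ∩ J).card) =
      ∑ a, w a * φ a * ∏ i ∈ S, (r i (a i) * (if i ∈ J then x else 1) + (1 - r i (a i))) := by
  rw [Finset.sum_comm]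
  refine Finset.sum_congr rfl fun a _ => ?_
  rw [Finset.prod_add, Finset.mul_sum]
  have h1 : S.powerset = univ.filter (fun D => D ⊆ S) := by ext D; simp
  rw [h1, Finset.sum_filter]
  refine Finset.sum_congr rfl fun D _ => ?_
  unfold u0
  split_ifs with h
  · rw [Finset.prod_mul_distrib, prod_ite_pow]
    ring
  · ring

theorem u0_marg (w : (I → Bool) → ℝ) (S : Finset I) (r : I → Bool → ℝ) (φ : (I → Bool) → ℝ) :
    ∑ D, ∑ a, u0 w S r D a * φ a = ∑ a, w a * φ a := by
  have h := u0_sum w S r φ ∅ 1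
  simp only [one_pow, mul_one] at h
  rw [h]
  refine Finset.sum_congr rfl fun a _ => ?_
  have h2 : ∏ i ∈ S, (r i (a i) * (if i ∈ (∅ : Finset I) then (1 : ℝ) else 1) +
      (1 - r i (a i))) = 1 := by
    refine Finset.prod_eq_one fun i _ => ?_
    split_ifs <;> ring
  rw [h2, mul_one]

theorem u0_bw {K : ℝ} (hK : 1 ≤ K) {w : (I → Bool) → ℝ} (hw : ∀ a, 0 ≤ w a) {S : Finset I}
    {r : I → Bool → ℝ} (hr : ∀ i ∈ S, ∀ b, 0 ≤ r i b ∧ r i b ≤ 1)
    (hc : ∀ i ∈ S, ∀ a b, w (Function.update a i b) * r i b ≤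
      K * (w (Function.update a i (!b)) * r i (!b))) : BW K (u0 w S r) := by
  have hnn : ∀ (D : Finset I) (a : I → Bool), D ⊆ S → 0 ≤ (∏ i ∈ D, r i (a i)) * ∏ i ∈ S \ D, (1 - r i (a i)) := by
    intro D a hD
    refine mul_nonneg (Finset.prod_nonneg fun i hi => (hr i (hD hi) _).1)
      (Finset.prod_nonneg fun i hi => ?_)
    have := (hr i (Finset.sdiff_subset hi) (a i)).2
    linarith
  have h0 : ∀ D a, 0 ≤ u0 w S r D a := by
    intro D a
    unfold u0
    split_ifs with h
    · exact mul_nonneg (hw a) (hnn D a h)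
    · exact le_refl _
  refine ⟨h0, fun D a i b hi => ?_⟩
  by_cases hD : D ⊆ S
  · by_cases hb : b = a i
    · rw [hb, Function.update_eq_self]
      have := h0 D a
      nlinarith
    · have hb' : a i = !b := by
        revert hb
        cases a i <;> cases b <;> simp
      have hiS := hD hi
      have e1 : ∀ c : Bool, u0 w S r D (Function.update a i c) =
          w (Function.update a i c) * r i c *
            ((∏ j ∈ D.erase i, r j (a j)) * ∏ j ∈ S \ D, (1 - r j (a j))) := by
        intro c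
        unfold u0
        rw [if_pos hD, ← Finset.mul_prod_erase D _ hi, Function.update_self]
        have e2 : ∏ j ∈ D.erase i, r j (Function.update a i c j) =
            ∏ j ∈ D.erase i, r j (a j) := by
          refine Finset.prod_congr rfl fun j hj => ?_
          rw [Function.update_of_ne (Finset.ne_of_mem_erase hj)]
        have e3 : ∏ j ∈ S \ D, (1 - r j (Function.update a i c j)) =
            ∏ j ∈ S \ D, (1 - r j (a j)) := by
          refine Finset.prod_congr rfl fun j hj => ?_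
          have hne : j ≠ i := by
            rintro rfl
            exact (Finset.mem_sdiff.1 hj).2 hi
          rw [Function.update_of_ne hne]
        rw [e2, e3]
        ring
      have e4 : u0 w S r D a = w (Function.update a i (!b)) * r i (!b) *
            ((∏ j ∈ D.erase i, r j (a j)) * ∏ j ∈ S \ D, (1 - r j (a j))) := by
        rw [← e1 (!b), ← hb', Function.update_eq_self]
      rw [e1 b, e4]
      have e5 : 0 ≤ (∏ j ∈ D.erase i, r j (a j)) * ∏ j ∈ S \ D, (1 - r j (a j)) := by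
        refine mul_nonneg (Finset.prod_nonneg fun j hj =>
          (hr j (hD (Finset.mem_of_mem_erase hj)) _).1) (Finset.prod_nonneg fun j hj => ?_)
        have := (hr j (Finset.sdiff_subset hj) (a j)).2
        linarith
      have e6 := mul_le_mul_of_nonneg_right (hc i hiS a b) e5
      calc _ ≤ _ := e6
        _ = _ := by ring
  · have e : ∀ a, u0 w S r D a = 0 := fun a => by unfold u0; rw [if_neg hD]
    rw [e, e, mul_zero]

/-- few free positions are unlikely -/
theorem few_free {w : (I → Bool) → ℝ} (hw : ∀ a, 0 ≤ w a) {S : Finset I}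
    {r : I → Bool → ℝ} {e : I → ℝ} (hr : ∀ i ∈ S, ∀ b, 0 ≤ r i b ∧ r i b ≤ 1)
    (he : ∀ i ∈ S, ∀ b, 0 ≤ e i ∧ e i ≤ r i b) {q : ℝ} (h0 : 0 ≤ q) (h1 : q ≤ 1) (k : ℕ)
    (J : Finset I) (hJ : J ⊆ S) (T : ℕ) (hu : ∀ D a, 0 ≤ (thin q)^[k] (u0 w S r) D a) :
    ∑ D, ∑ a, (thin q)^[k] (u0 w S r) D a * (if (D ∩ J).card ≤ T then (1 : ℝ) else 0) ≤
      2 ^ T * Real.exp (-(q ^ k / 2 * ∑ i ∈ J, e i)) * ∑ a, w a := by
  have hq0 : 0 ≤ q ^ k := pow_nonneg h0 k
  have hq1 : q ^ k ≤ 1 := pow_le_one₀ h0 h1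
  have s1 : ∑ D, ∑ a, (thin q)^[k] (u0 w S r) D a * (if (D ∩ J).card ≤ T then (1 : ℝ) else 0) ≤
      2 ^ T * ∑ D, ∑ a, (thin q)^[k] (u0 w S r) D a * (1 / 2) ^ (D ∩ J).card := by
    rw [Finset.mul_sum]
    refine Finset.sum_le_sum fun D _ => ?_
    rw [Finset.mul_sum]
    refine Finset.sum_le_sum fun a _ => ?_
    have h2 : (if (D ∩ J).card ≤ T then (1 : ℝ) else 0) ≤ 2 ^ T * (1 / 2) ^ (D ∩ J).card := by
      split_ifs with hc
      · have h2 : (1 / 2 : ℝ) ^ T ≤ (1 / 2) ^ (D ∩ J).card :=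
          pow_le_pow_of_le_one (by norm_num) (by norm_num) hc
        have h3 : (2 : ℝ) ^ T * (1 / 2) ^ T = 1 := by
          rw [← mul_pow]; norm_num
        have h4 := mul_le_mul_of_nonneg_left h2 (show (0 : ℝ) ≤ 2 ^ T by positivity)
        rw [h3] at h4
        exact h4
      · positivity
    calc _ ≤ (thin q)^[k] (u0 w S r) D a * (2 ^ T * (1 / 2) ^ (D ∩ J).card) :=
          mul_le_mul_of_nonneg_left h2 (hu D a)
      _ = _ := by ring
  refine s1.trans ?_
  rw [mul_assoc]
  refine mul_le_mul_of_nonneg_left ?_ (by positivity)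
  rw [iter_pow]
  have h5 := u0_sum w S r (fun _ => 1) J (1 - q ^ k * (1 - 1 / 2))
  simp only [one_mul, mul_one] at h5
  rw [h5, Finset.mul_sum]
  refine Finset.sum_le_sum fun a _ => ?_
  rw [mul_comm]
  refine mul_le_mul_of_nonneg_right ?_ (hw a)
  have h6 : ∏ i ∈ S, (r i (a i) * (if i ∈ J then 1 - q ^ k * (1 - 1 / 2) else 1) +
      (1 - r i (a i))) = ∏ i ∈ J, (1 - q ^ k / 2 * r i (a i)) := by
    rw [← Finset.prod_subset hJ]
    · refine Finset.prod_congr rfl fun i hi => ?_
      rw [if_pos hi]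
      ring
    · intro i _ hi
      rw [if_neg hi]
      ring
  rw [h6, Finset.mul_sum, ← Finset.sum_neg_distrib, Real.exp_sum]
  refine Finset.prod_le_prod (fun i hi => ?_) (fun i hi => ?_)
  · have h7 := hr i (hJ hi) (a i)
    nlinarith [h7.1, h7.2]
  · have h8 := (he i (hJ hi) (a i)).2
    have h9 := Real.add_one_le_exp (-(q ^ k / 2 * e i))
    have h10 : q ^ k / 2 * e i ≤ q ^ k / 2 * r i (a i) :=
      mul_le_mul_of_nonneg_left h8 (by linarith)
    linarith

end

end Pool.Agent.Y616.QI
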