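import Pool.Agent.Y616.QI.Jt

/-!
# Many nested parities are not all right
-/

set_option autoImplicit false
set_option linter.unusedSectionVars false

namespace Pool.Agent.Y616.QI

open Finset H568R2 Pool.Agent.H676 Pool.Agent.H620R2.Gauge

section

variable {I : Type*} [Fintype I] [DecidableEq I]

/-- the positions asked by a decision tree -/
theorem qs {k : ℕ} : ∀ {f : (I → Bool) → Bool}, DTr k f → ∃ Q : (I → Bool) → Finset I,
    (∀ a, (Q a).card ≤ k) ∧ ∀ a b, (∀ i ∈ Q a, b i = a i) → Q b = Q a ∧ f b = f a := by
  induction k with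
  | zero =>
    rintro f ⟨c, h⟩
    exact ⟨fun _ => ∅, fun _ => by simp, fun a b _ => ⟨rfl, by rw [h, h]⟩⟩
  | succ k ih =>
    rintro f (⟨c, h⟩ | ⟨i, h⟩)
    · exact ⟨fun _ => ∅, fun _ => by simp, fun a b _ => ⟨rfl, by rw [h, h]⟩⟩
    · choose Q hQ1 hQ2 using fun b => ih (h b)
      refine ⟨fun a => insert i (Q (a i) a), fun a => (Finset.card_insert_le _ _).trans
        (Nat.succ_le_succ (hQ1 _ _)), fun a b hab => ?_⟩
      have h1 : b i = a i := hab i (Finset.mem_insert_self _ _)
      have h2 := hQ2 (a i) a b fun j hj => hab j (Finset.mem_insert_of_mem hj)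
      refine ⟨?_, ?_⟩
      · show insert i (Q (b i) b) = insert i (Q (a i) a)
        rw [h1, h2.1]
      · have h3 := h2.2
        have e1 : Function.update a i (a i) = a := Function.update_eq_self i a
        have e2 : Function.update b i (a i) = b := by
          rw [← h1]; exact Function.update_eq_self i b
        rw [e1, e2] at h3
        exact h3

open Classical in
theorem nested {K : ℝ} (hK : 1 ≤ K) {D : Finset I} {v : (I → Bool) → ℝ} (hv : ∀ a, 0 ≤ v a)
    (hb : ∀ a i b, i ∈ D → v (Function.update a i b) ≤ K * v a) {t M : ℕ}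
    (h P : ℕ → (I → Bool) → Bool) (hh : ∀ l < M, DTr t (h l)) (J : ℕ → Finset I)
    (hJD : ∀ l < M, J l ⊆ D) (hJ : ∀ l < M, M * t < (J l).card)
    (hP1 : ∀ l < M, ∀ a, ∀ i ∈ J l, P l (Function.update a i (!(a i))) = !(P l a))
    (hP2 : ∀ l < M, ∀ l' < l, ∀ a, ∀ i ∈ J l, P l' (Function.update a i (!(a i))) = P l' a) :
    ∀ m ≤ M, ∑ a, v a * (if ∀ l < m, h l a = P l a then (1 : ℝ) else 0) ≤
      (K / (K + 1)) ^ m * ∑ a, v a := by
  have hK0 : 0 ≤ K := by linarith
  have hex : ∀ l : ℕ, ∃ Q : (I → Bool) → Finset I, l < M → ((∀ a, (Q a).card ≤ t) ∧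
      ∀ a b, (∀ i ∈ Q a, b i = a i) → Q b = Q a ∧ h l b = h l a) := by
    intro l
    by_cases hl : l < M
    · obtain ⟨Q, hQ⟩ := qs (hh l hl)
      exact ⟨Q, fun _ => hQ⟩
    · exact ⟨fun _ => ∅, fun h => absurd h hl⟩
  choose Q hQ using hex
  intro m
  induction m with
  | zero =>
    intro _
    simp
  | succ m ih =>
    intro hm
    have ih' := ih (by omega)
    have hmM : m < M := hm
    -- the positions which are not asked
    let U : (I → Bool) → Finset I := fun a => (Finset.range (m + 1)).biUnion (fun l => Q l a)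
    let R : (I → Bool) → Finset I := fun a => J m \ U a
    have hUc : ∀ a, (U a).card ≤ M * t := by
      intro a
      refine Finset.card_biUnion_le.trans ?_
      refine (Finset.sum_le_card_nsmul _ _ t fun l hl => ?_).trans ?_
      · rw [Finset.mem_range] at hl
        exact (hQ l (by omega)).1 a
      · rw [Finset.card_range, smul_eq_mul]
        exact Nat.mul_le_mul_right _ hm
    have hR : ∀ a, (R a).Nonempty := by
      intro a
      rw [← Finset.card_pos]
      have h1 := hUc a
      have h2 := hJ m hmM
      have h3 : (J m).card ≤ (R a).card + (U a).card := by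
        have := Finset.card_le_card_sdiff_add_card (s := J m) (t := U a)
        exact this
      omega
    have hI : Nonempty I := ⟨(hR (fun _ => false)).choose⟩
    let sel : Finset I → I := fun s => Classical.epsilon (fun i => i ∈ s)
    have hsel : ∀ s : Finset I, s.Nonempty → sel s ∈ s := fun s hs =>
      Classical.epsilon_spec (p := fun i => i ∈ s) hs
    let φ : (I → Bool) → (I → Bool) := fun a => Function.update a (sel (R a)) (!(a (sel (R a))))
    have hmem : ∀ a, sel (R a) ∈ J m ∧ sel (R a) ∉ U a := fun a =>
      Finset.mem_sdiff.1 (hsel _ (hR a))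
    have hUφ : ∀ a, U (φ a) = U a ∧ ∀ l ≤ m, h l (φ a) = h l a := by
      intro a
      have h1 : ∀ l ≤ m, Q l (φ a) = Q l a ∧ h l (φ a) = h l a := by
        intro l hl
        apply (hQ l (by omega)).2 a (φ a)
        intro i hi
        have hne : i ≠ sel (R a) := by
          intro h2
          apply (hmem a).2
          rw [← h2]
          exact Finset.mem_biUnion.2 ⟨l, Finset.mem_range.2 (by omega), hi⟩
        exact Function.update_of_ne hne _ _
      refine ⟨?_, fun l hl => (h1 l hl).2⟩
      refine Finset.biUnion_congr rfl fun l hl => ?_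
      rw [Finset.mem_range] at hl
      exact (h1 l (by omega)).1
    have hRφ : ∀ a, R (φ a) = R a := by
      intro a
      show J m \ U (φ a) = J m \ U a
      rw [(hUφ a).1]
    have hφφ : ∀ a, φ (φ a) = a := by
      intro a
      show Function.update (φ a) (sel (R (φ a))) (!((φ a) (sel (R (φ a))))) = a
      rw [hRφ a]
      show Function.update (Function.update a (sel (R a)) (!(a (sel (R a))))) (sel (R a))
        (!(Function.update a (sel (R a)) (!(a (sel (R a)))) (sel (R a)))) = a
      rw [Function.update_idem, Function.update_self, Bool.not_not, Function.update_eq_self]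
    have hinj : Function.Injective φ := fun a b hab => by
      rw [← hφφ a, hab, hφφ b]
    have e1 : ∀ m' : ℕ, ∑ a, v a * (if ∀ l < m', h l a = P l a then (1 : ℝ) else 0) =
        ∑ a ∈ univ.filter (fun a => ∀ l < m', h l a = P l a), v a := by
      intro m'
      rw [Finset.sum_filter]
      refine Finset.sum_congr rfl fun a _ => ?_
      split_ifs <;> simp
    rw [e1] at ih' ⊢
    have hsub : univ.filter (fun a => ∀ l < m + 1, h l a = P l a) ⊆
        univ.filter (fun a => ∀ l < m, h l a = P l a) := by
      intro a ha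
      rw [Finset.mem_filter] at ha ⊢
      exact ⟨ha.1, fun l hl => ha.2 l (by omega)⟩
    have h5 := Finset.sum_sdiff (f := v) hsub
    have h6 : ∑ a ∈ univ.filter (fun a => ∀ l < m + 1, h l a = P l a), v a ≤
        K * ∑ a ∈ univ.filter (fun a => ∀ l < m, h l a = P l a) \
          univ.filter (fun a => ∀ l < m + 1, h l a = P l a), v a := by
      refine sum_inj hv φ ?_ hinj.injOn hK0 ?_
      · intro a ha
        rw [Finset.mem_filter] at ha
        rw [Finset.mem_sdiff, Finset.mem_filter, Finset.mem_filter]
        refine ⟨⟨Finset.mem_univ _, fun l hl => ?_⟩, ?_⟩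
        · rw [(hUφ a).2 l hl.le, ha.2 l (by omega)]
          exact (hP2 m hmM l hl a _ (hmem a).1).symm
        · rintro ⟨_, h7⟩
          have h8 := h7 m (Nat.lt_succ_self m)
          rw [(hUφ a).2 m le_rfl, ha.2 m (Nat.lt_succ_self m)] at h8
          have h9 : P m (φ a) = !(P m a) := hP1 m hmM a _ (hmem a).1
          rw [h9] at h8
          cases hx : P m a <;> rw [hx] at h8 <;> simp at h8
      · intro a _
        have h7 := hb (φ a) (sel (R a)) (a (sel (R a))) (hJD m hmM (hmem a).1)
        have h8 : Function.update (φ a) (sel (R a)) (a (sel (R a))) = a := by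
          show Function.update (Function.update a (sel (R a)) (!(a (sel (R a))))) (sel (R a)) _ = a
          rw [Function.update_idem, Function.update_eq_self]
        rw [h8] at h7
        exact h7
    have h10 : (K + 1) * ∑ a ∈ univ.filter (fun a => ∀ l < m + 1, h l a = P l a), v a ≤
        K * ∑ a ∈ univ.filter (fun a => ∀ l < m, h l a = P l a), v a := by
      nlinarith
    have hK1 : 0 < K + 1 := by linarith
    have h11 : ∑ a ∈ univ.filter (fun a => ∀ l < m + 1, h l a = P l a), v a ≤
        K / (K + 1) * ∑ a ∈ univ.filter (fun a => ∀ l < m, h l a = P l a), v a := by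
      rw [div_mul_eq_mul_div, le_div_iff₀ hK1]
      linarith
    refine h11.trans ?_
    rw [pow_succ, mul_comm ((K / (K + 1)) ^ m) (K / (K + 1)), mul_assoc]
    exact mul_le_mul_of_nonneg_left ih' (by positivity)

end

end Pool.Agent.Y616.QI
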