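import Pool.Agent.Y616.QI.Sw
import Pool.Agent.H620R2.Gauge.W

/-!
# Joint weights of sets of free positions and assignments
-/

set_option autoImplicit false
set_option linter.unusedSectionVars false

namespace Pool.Agent.Y616.QI

open Finset H568R2 Pool.Agent.H676 Pool.Agent.H620R2.Gauge

section

variable {I : Type*} [Fintype I] [DecidableEq I]

/-- the restriction which leaves `D` free and fixes the other bits as in `a` -/
def rof (D : Finset I) (a : I → Bool) : Restr I := fun i => if i ∈ D then none else some (a i)

/-- the free positions -/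
def st (σ : Restr I) : Finset I := univ.filter (fun i => σ i = none)

/-- the assignments that extend a restriction -/
def cons (σ : Restr I) : Finset (I → Bool) :=
  univ.filter (fun a => ∀ i, σ i = none ∨ σ i = some (a i))

theorem mem_st {σ : Restr I} {i : I} : i ∈ st σ ↔ σ i = none := by simp [st]

theorem mem_cons {σ : Restr I} {a : I → Bool} :
    a ∈ cons σ ↔ ∀ i, σ i = none ∨ σ i = some (a i) := by simp [cons]

theorem st_rof (D : Finset I) (a : I → Bool) : st (rof D a) = D := by
  ext i
  rw [mem_st, rof]
  by_cases h : i ∈ D <;> simp [h]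

theorem mem_cons_rof (D : Finset I) (a : I → Bool) : a ∈ cons (rof D a) := by
  rw [mem_cons]
  intro i
  unfold rof
  by_cases h : i ∈ D <;> simp [h]

theorem rof_st {σ : Restr I} {a : I → Bool} (h : a ∈ cons σ) : rof (st σ) a = σ := by
  rw [mem_cons] at h
  funext i
  unfold rof
  by_cases hi : i ∈ st σ
  · rw [if_pos hi, mem_st.1 hi]
  · rw [if_neg hi]
    rcases h i with h1 | h1
    · exact absurd (mem_st.2 h1) hi
    · exact h1.symm

/-- the probability that exactly `D'` remains of `D` -/
noncomputable def pr (q : ℝ) (D D' : Finset I) : ℝ := q ^ D'.card * (1 - q) ^ (D.card - D'.card)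

theorem pr_nonneg {q : ℝ} (h0 : 0 ≤ q) (h1 : q ≤ 1) (D D' : Finset I) : 0 ≤ pr q D D' :=
  mul_nonneg (pow_nonneg h0 _) (pow_nonneg (by linarith) _)

theorem pr_sum (q : ℝ) (D : Finset I) : ∑ D' ∈ D.powerset, pr q D D' = 1 := by
  unfold pr
  rw [Finset.sum_pow_mul_eq_add_pow, add_sub_cancel, one_pow]

/-- the weights of the restrictions -/
noncomputable def WD (q : ℝ) (D : Finset I) (v : (I → Bool) → ℝ) (σ : Restr I) : ℝ :=
  if st σ ⊆ D then pr q D (st σ) * ∑ a ∈ cons σ, v a else 0

theorem WD_sum (q : ℝ) (D : Finset I) (v : (I → Bool) → ℝ) (Φ : Restr I → ℝ) :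
    ∑ σ : Restr I, WD q D v σ * Φ σ =
      ∑ a, v a * ∑ D' ∈ D.powerset, pr q D D' * Φ (rof D' a) := by
  have h1 : ∀ σ : Restr I, WD q D v σ * Φ σ =
      ∑ a, (if st σ ⊆ D ∧ a ∈ cons σ then pr q D (st σ) * v a * Φ σ else 0) := by
    intro σ
    unfold WD
    by_cases h : st σ ⊆ D
    · simp only [h, true_and, if_true]
      rw [← Finset.sum_filter]
      rw [Finset.mul_sum, Finset.sum_mul]
      refine Finset.sum_congr ?_ fun _ _ => rfl
      ext a
      simp
    · simp only [h, false_and, if_false, zero_mul, Finset.sum_const_zero]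
  rw [Finset.sum_congr rfl fun σ _ => h1 σ, Finset.sum_comm]
  refine Finset.sum_congr rfl fun a _ => ?_
  rw [← Finset.sum_filter, Finset.mul_sum]
  symm
  refine Finset.sum_bij' (fun D' _ => rof D' a) (fun σ _ => st σ) ?_ ?_ ?_ ?_ ?_
  · intro D' hD'
    rw [Finset.mem_filter]
    refine ⟨Finset.mem_univ _, ?_, mem_cons_rof D' a⟩
    rw [st_rof]
    exact Finset.mem_powerset.1 hD'
  · intro σ hσ
    rw [Finset.mem_filter] at hσ
    exact Finset.mem_powerset.2 hσ.2.1
  · intro D' _
    exact st_rof D' a
  · intro σ hσ
    rw [Finset.mem_filter] at hσ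
    exact rof_st hσ.2.2
  · intro D' _
    rw [st_rof]
    ring

theorem sum_inj {S T : Finset (I → Bool)} {v : (I → Bool) → ℝ} (hv : ∀ a, 0 ≤ v a)
    (g : (I → Bool) → (I → Bool)) (hg : ∀ a ∈ S, g a ∈ T) (hinj : Set.InjOn g (S : Set (I → Bool)))
    {K : ℝ} (hK : 0 ≤ K) (h : ∀ a ∈ S, v a ≤ K * v (g a)) : ∑ a ∈ S, v a ≤ K * ∑ a ∈ T, v a := by
  calc ∑ a ∈ S, v a ≤ ∑ a ∈ S, K * v (g a) := Finset.sum_le_sum h
    _ = K * ∑ a ∈ S.image g, v a := by rw [← Finset.mul_sum, Finset.sum_image hinj]
    _ ≤ K * ∑ a ∈ T, v a := by
      refine mul_le_mul_of_nonneg_left ?_ hK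
      refine Finset.sum_le_sum_of_subset_of_nonneg ?_ fun a _ _ => hv a
      intro b hb
      obtain ⟨a, ha, rfl⟩ := Finset.mem_image.1 hb
      exact hg a ha

/-- the cost of fixing a free bit -/
noncomputable def gam (q K : ℝ) : ℝ := (1 + K) * (q / (1 - q))

theorem WD_ws {q K : ℝ} (h0 : 0 ≤ q) (h1 : q < 1) (hK : 1 ≤ K) {D : Finset I}
    {v : (I → Bool) → ℝ} (hv : ∀ a, 0 ≤ v a)
    (hb : ∀ a i b, i ∈ D → v (Function.update a i b) ≤ K * v a) :
    WS D (gam q K) K (WD q D v) := by
  have hK0 : 0 ≤ K := by linarith
  have hq : 0 < 1 - q := by linarith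
  have hcs : ∀ σ : Restr I, 0 ≤ ∑ a ∈ cons σ, v a := fun σ => Finset.sum_nonneg fun a _ => hv a
  have hnn : ∀ σ, 0 ≤ WD q D v σ := by
    intro σ
    unfold WD
    split_ifs
    · exact mul_nonneg (pr_nonneg h0 h1.le _ _) (hcs σ)
    · exact le_refl _
  have hrev : ∀ a i b, i ∈ D → v a ≤ K * v (Function.update a i b) := by
    intro a i b hi
    have h2 := hb (Function.update a i b) i (a i) hi
    rwa [Function.update_idem, Function.update_eq_self] at h2
  refine ⟨?_, hK0, hnn, ?_, ?_, ?_⟩
  · unfold gam
    have : 0 ≤ q / (1 - q) := div_nonneg h0 hq.le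
    nlinarith
  · intro σ i hi hiD
    unfold WD
    rw [if_neg]
    intro h
    exact hiD (h (mem_st.2 hi))
  · intro σ i b hi hσ
    by_cases hD : st σ ⊆ D
    · have hst : st (Function.update σ i (some b)) = (st σ).erase i := by
        ext j
        rw [mem_st, Finset.mem_erase, mem_st]
        by_cases hj : j = i
        · subst hj; simp
        · simp [Function.update_of_ne hj, hj]
      have hD' : st (Function.update σ i (some b)) ⊆ D := by
        rw [hst]
        exact (Finset.erase_subset _ _).trans hD
      have hmem : i ∈ st σ := mem_st.2 hσ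
      have hcard : (st σ).card ≤ D.card := Finset.card_le_card hD
      have hpos : 1 ≤ (st σ).card := Finset.card_pos.2 ⟨i, hmem⟩
      have hpr : pr q D (st σ) = q / (1 - q) * pr q D (st (Function.update σ i (some b))) := by
        unfold pr
        rw [hst, Finset.card_erase_of_mem hmem]
        obtain ⟨s, hs⟩ : ∃ s, (st σ).card = s + 1 := ⟨(st σ).card - 1, by omega⟩
        rw [hs]
        have e1 : s + 1 - 1 = s := by omega
        have e2 : D.card - s = (D.card - (s + 1)) + 1 := by omega
        rw [e1, e2, pow_succ, pow_succ]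
        field_simp
      have hsum : ∑ a ∈ cons σ, v a ≤
          (1 + K) * ∑ a ∈ cons (Function.update σ i (some b)), v a := by
        rw [← Finset.sum_filter_add_sum_filter_not (cons σ) (fun a => a i = b)]
        have e1 : (cons σ).filter (fun a => a i = b) = cons (Function.update σ i (some b)) := by
          ext a
          rw [Finset.mem_filter, mem_cons, mem_cons]
          constructor
          · rintro ⟨h2, h3⟩ j
            by_cases hj : j = i
            · subst hj
              right
              rw [Function.update_self, h3]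
            · rw [Function.update_of_ne hj]
              exact h2 j
          · intro h2
            constructor
            · intro j
              by_cases hj : j = i
              · subst hj
                left; exact hσ
              · have := h2 j
                rwa [Function.update_of_ne hj] at this
            · have := h2 i
              rw [Function.update_self] at this
              simp only [reduceCtorEq, Option.some.injEq, false_or] at this
              exact this.symm
        have e2 : ∑ a ∈ (cons σ).filter (fun a => ¬ a i = b), v a ≤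
            K * ∑ a ∈ cons (Function.update σ i (some b)), v a := by
          rw [← e1]
          refine sum_inj hv (fun a => Function.update a i b) ?_ ?_ hK0 ?_
          · intro a ha
            rw [Finset.mem_filter, mem_cons] at ha ⊢
            refine ⟨fun j => ?_, Function.update_self i b a⟩
            by_cases hj : j = i
            · subst hj
              left; exact hσ
            · rw [Function.update_of_ne hj]
              exact ha.1 j
          · intro a ha a' ha' h2
            rw [Finset.mem_coe, Finset.mem_filter] at ha ha'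
            funext j
            by_cases hj : j = i
            · subst hj
              have h3 := ha.2
              have h4 := ha'.2
              revert h3 h4
              cases a j <;> cases a' j <;> cases b <;> simp
            · have h3 := congrFun h2 j
              simpa [Function.update_of_ne hj] using h3
          · intro a _
            exact hrev a i b hi
        rw [e1]
        linarith
      have hW : WD q D v σ = pr q D (st σ) * ∑ a ∈ cons σ, v a := by
        unfold WD; rw [if_pos hD]
      have hW' : WD q D v (Function.update σ i (some b)) =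
          pr q D (st (Function.update σ i (some b))) *
            ∑ a ∈ cons (Function.update σ i (some b)), v a := by
        unfold WD; rw [if_pos hD']
      rw [hW, hW', hpr]
      unfold gam
      have hp := pr_nonneg h0 h1.le D (st (Function.update σ i (some b)))
      have hqq : 0 ≤ q / (1 - q) := div_nonneg h0 hq.le
      calc q / (1 - q) * pr q D (st (Function.update σ i (some b))) * ∑ a ∈ cons σ, v a
          ≤ q / (1 - q) * pr q D (st (Function.update σ i (some b))) *
            ((1 + K) * ∑ a ∈ cons (Function.update σ i (some b)), v a) :=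
            mul_le_mul_of_nonneg_left hsum (mul_nonneg hqq hp)
        _ = _ := by ring
    · have : WD q D v σ = 0 := by unfold WD; rw [if_neg hD]
      rw [this]
      refine mul_nonneg ?_ (hnn _)
      unfold gam
      have : 0 ≤ q / (1 - q) := div_nonneg h0 hq.le
      nlinarith
  · intro σ i b hi hσ
    have hst : st (Function.update σ i (some b)) = st σ := by
      ext j
      rw [mem_st, mem_st]
      by_cases hj : j = i
      · subst hj
        simp [hσ]
      · simp [Function.update_of_ne hj]
    by_cases hD : st σ ⊆ D
    · have hW : WD q D v σ = pr q D (st σ) * ∑ a ∈ cons σ, v a := by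
        unfold WD; rw [if_pos hD]
      have hW' : WD q D v (Function.update σ i (some b)) =
          pr q D (st σ) * ∑ a ∈ cons (Function.update σ i (some b)), v a := by
        unfold WD; rw [hst, if_pos hD]
      rw [hW, hW']
      obtain ⟨c, hc⟩ := Option.ne_none_iff_exists'.1 hσ
      have hsum : ∑ a ∈ cons σ, v a ≤ K * ∑ a ∈ cons (Function.update σ i (some b)), v a := by
        refine sum_inj hv (fun a => Function.update a i b) ?_ ?_ hK0 ?_
        · intro a ha
          rw [mem_cons] at ha ⊢
          intro j
          by_cases hj : j = i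
          · subst hj
            simp
          · rw [Function.update_of_ne hj, Function.update_of_ne hj]
            exact ha j
        · intro a ha a' ha' h2
          rw [Finset.mem_coe, mem_cons] at ha ha'
          funext j
          by_cases hj : j = i
          · subst hj
            have h3 := ha j
            have h4 := ha' j
            rw [hc] at h3 h4
            simp only [reduceCtorEq, Option.some.injEq, false_or] at h3 h4
            rw [← h3, ← h4]
          · have h3 := congrFun h2 j
            simpa [Function.update_of_ne hj] using h3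
        · intro a _
          exact hrev a i b hi
      have hp := pr_nonneg h0 h1.le D (st σ)
      calc pr q D (st σ) * ∑ a ∈ cons σ, v a
          ≤ pr q D (st σ) * (K * ∑ a ∈ cons (Function.update σ i (some b)), v a) :=
            mul_le_mul_of_nonneg_left hsum hp
        _ = _ := by ring
    · have : WD q D v σ = 0 := by unfold WD; rw [if_neg hD]
      rw [this]
      exact mul_nonneg hK0 (hnn _)

open Classical in
/-- one set of free positions -/
theorem one_set {q K : ℝ} (h0 : 0 ≤ q) (h1 : q < 1) (hK : 1 ≤ K) {D : Finset I}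
    {v : (I → Bool) → ℝ} (hv : ∀ a, 0 ≤ v a)
    (hb : ∀ a i b, i ∈ D → v (Function.update a i b) ≤ K * v a) {t k : ℕ} (ht : 1 ≤ t) {b : Bool}
    {f : (I → Bool) → Bool} (hf : Cert t b f) :
    ∑ a, v a * ∑ D' ∈ D.powerset, pr q D D' *
      (if ¬ DTr k (rs f (rof D' a)) then (1 : ℝ) else 0) ≤
      (4 * t * (gam q K * K)) ^ (k + 1) * ∑ a, v a := by
  have h2 := (WD_ws h0 h1 hK hv hb).switch (k := k) ht hf
  have h3 := WD_sum q D v (fun σ => if ¬ DTr k (rs f σ) then (1 : ℝ) else 0)
  have h4 := WD_sum q D v (fun _ => 1)
  simp only [mul_one, pr_sum] at h4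
  rw [← h3, ← h4]
  exact h2

/-- Joint weights which change at most by a factor `K` if a free bit is changed. -/
structure BW (K : ℝ) (u : Finset I → (I → Bool) → ℝ) : Prop where
  nonneg : ∀ D a, 0 ≤ u D a
  bal : ∀ D a i b, i ∈ D → u D (Function.update a i b) ≤ K * u D a

/-- the bits outside of `D` -/
def cz (D : Finset I) (a : I → Bool) : I → Bool := fun i => if i ∈ D then false else a i

theorem rof_cz (D : Finset I) (a : I → Bool) : rof D (cz D a) = rof D a := by
  funext i
  unfold rof cz
  by_cases h : i ∈ D <;> simp [h]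

theorem cz_update {D : Finset I} (a : I → Bool) {i : I} (hi : i ∈ D) (b : Bool) :
    cz D (Function.update a i b) = cz D a := by
  funext j
  unfold cz
  by_cases hj : j ∈ D
  · simp [hj]
  · have : j ≠ i := fun h => hj (h ▸ hi)
    simp [hj, Function.update_of_ne this]

theorem rs_rof {D D' : Finset I} (hD : D' ⊆ D) (g : (I → Bool) → Bool) (a : I → Bool) :
    rs (rs g (rof D a)) (rof D' a) = rs g (rof D' a) := by
  funext x
  unfold rs
  congr 1
  funext i
  unfold ov rof
  by_cases h : i ∈ D
  · simp [h]
  · have : i ∉ D' := fun h' => h (hD h')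
    simp [h, this]

open Classical in
theorem stage {q K : ℝ} (h0 : 0 ≤ q) (h1 : q < 1) (hK : 1 ≤ K)
    {u : Finset I → (I → Bool) → ℝ} (hu : BW K u) {t k : ℕ} (ht : 1 ≤ t) {b : Bool}
    (g : (I → Bool) → Bool) (G : Restr I → Prop) (hG : ∀ σ, G σ → Cert t b (rs g σ)) :
    ∑ D, ∑ a, u D a * ∑ D' ∈ D.powerset, pr q D D' *
      (if G (rof D a) ∧ ¬ DTr k (rs g (rof D' a)) then (1 : ℝ) else 0) ≤
      (4 * t * (gam q K * K)) ^ (k + 1) * ∑ D, ∑ a, u D a := by
  rw [Finset.mul_sum]
  refine Finset.sum_le_sum fun D _ => ?_
  have hgam : 0 ≤ gam q K := by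
    unfold gam
    have : 0 ≤ q / (1 - q) := div_nonneg h0 (by linarith)
    nlinarith
  have hfib : ∀ F : (I → Bool) → ℝ, ∑ a, F a = ∑ c : I → Bool, ∑ a ∈ univ.filter
      (fun a => cz D a = c), F a := fun F => (Finset.sum_fiberwise univ (cz D) F).symm
  rw [hfib (fun a => u D a * ∑ D' ∈ D.powerset, pr q D D' *
      (if G (rof D a) ∧ ¬ DTr k (rs g (rof D' a)) then (1 : ℝ) else 0)),
    hfib (fun a => u D a), Finset.mul_sum]
  refine Finset.sum_le_sum fun c _ => ?_
  have e1 : ∀ F : (I → Bool) → ℝ, ∑ a ∈ univ.filter (fun a => cz D a = c), F a =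
      ∑ a, (if cz D a = c then F a else 0) := fun F => Finset.sum_filter _ _
  by_cases hGc : G (rof D c)
  · have h2 := one_set (k := k) h0 h1 hK (D := D) (v := fun a => if cz D a = c then u D a else 0)
      (fun a => by
        show (0 : ℝ) ≤ if cz D a = c then u D a else 0
        split_ifs
        · exact hu.nonneg _ _
        · exact le_refl _)
      (fun a i b hi => by
        show (if cz D (Function.update a i b) = c then u D (Function.update a i b) else 0) ≤
          K * (if cz D a = c then u D a else 0)
        rw [cz_update a hi]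
        split_ifs
        · exact hu.bal D a i b hi
        · simp) ht (hG _ hGc)
    rw [e1, e1]
    refine le_trans (Finset.sum_le_sum fun a _ => ?_) h2
    by_cases hc : cz D a = c
    · simp only [hc, if_true]
      refine mul_le_mul_of_nonneg_left ?_ (hu.nonneg D a)
      refine Finset.sum_le_sum fun D' hD' => ?_
      refine mul_le_mul_of_nonneg_left ?_ (pr_nonneg h0 h1.le _ _)
      have h3 : rs (rs g (rof D c)) (rof D' a) = rs g (rof D' a) := by
        rw [← rs_rof (Finset.mem_powerset.1 hD') g a, ← hc, rof_cz]
      rw [h3]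
      by_cases h4 : DTr k (rs g (rof D' a))
      · simp [h4]
      · simp only [h4, not_false_iff, and_true, if_true]
        split_ifs <;> norm_num
    · simp [hc]
  · have h3 : ∀ a ∈ univ.filter (fun a => cz D a = c), u D a * ∑ D' ∈ D.powerset, pr q D D' *
      (if G (rof D a) ∧ ¬ DTr k (rs g (rof D' a)) then (1 : ℝ) else 0) = 0 := by
      intro a ha
      rw [Finset.mem_filter] at ha
      have h4 : rof D a = rof D c := by rw [← ha.2, rof_cz]
      rw [h4]
      simp [hGc]
    rw [Finset.sum_eq_zero h3]
    refine mul_nonneg (by positivity) (Finset.sum_nonneg fun a _ => hu.nonneg _ _)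

/-- every free position is kept with probability `q` -/
noncomputable def thin (q : ℝ) (u : Finset I → (I → Bool) → ℝ) (D' : Finset I)
    (a : I → Bool) : ℝ :=
  ∑ D ∈ univ.filter (fun D => D' ⊆ D), u D a * pr q D D'

theorem thin_sum (q : ℝ) (u : Finset I → (I → Bool) → ℝ) (F : Finset I → (I → Bool) → ℝ) :
    ∑ D', ∑ a, thin q u D' a * F D' a =
      ∑ D, ∑ a, u D a * ∑ D' ∈ D.powerset, pr q D D' * F D' a := by
  rw [Finset.sum_comm]
  conv_rhs => rw [Finset.sum_comm]
  refine Finset.sum_congr rfl fun a _ => ?_
  unfold thin
  have e1 : ∀ D' : Finset I, (∑ D ∈ univ.filter (fun D => D' ⊆ D), u D a * pr q D D') * F D' a =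
      ∑ D, if D' ⊆ D then u D a * pr q D D' * F D' a else 0 := by
    intro D'
    rw [Finset.sum_mul, Finset.sum_filter]
  rw [Finset.sum_congr rfl fun D' _ => e1 D', Finset.sum_comm]
  refine Finset.sum_congr rfl fun D _ => ?_
  rw [← Finset.sum_filter, Finset.mul_sum]
  refine Finset.sum_congr ?_ fun D' _ => by ring
  ext D'
  simp

theorem thin_tot (q : ℝ) (u : Finset I → (I → Bool) → ℝ) :
    ∑ D', ∑ a, thin q u D' a = ∑ D, ∑ a, u D a := by
  have h := thin_sum q u (fun _ _ => 1)
  simp only [mul_one, pr_sum] at h
  exact h

theorem BW.thin {q K : ℝ} (h0 : 0 ≤ q) (h1 : q ≤ 1) {u : Finset I → (I → Bool) → ℝ}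
    (hu : BW K u) : BW K (thin q u) := by
  constructor
  · intro D a
    exact Finset.sum_nonneg fun D' _ => mul_nonneg (hu.nonneg _ _) (pr_nonneg h0 h1 _ _)
  · intro D' a i b hi
    unfold QI.thin
    rw [Finset.mul_sum]
    refine Finset.sum_le_sum fun D hD => ?_
    rw [Finset.mem_filter] at hD
    have h2 := hu.bal D a i b (hD.2 hi)
    calc u D (Function.update a i b) * pr q D D' ≤ K * u D a * pr q D D' :=
          mul_le_mul_of_nonneg_right h2 (pr_nonneg h0 h1 _ _)
      _ = _ := by ring

theorem BW.iter {q K : ℝ} (h0 : 0 ≤ q) (h1 : q ≤ 1) {u : Finset I → (I → Bool) → ℝ}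
    (hu : BW K u) (k : ℕ) : BW K ((QI.thin q)^[k] u) := by
  induction k with
  | zero => exact hu
  | succ k ih =>
    rw [Function.iterate_succ_apply']
    exact ih.thin h0 h1

theorem iter_tot (q : ℝ) (u : Finset I → (I → Bool) → ℝ) (k : ℕ) :
    ∑ D', ∑ a, (thin q)^[k] u D' a = ∑ D, ∑ a, u D a := by
  induction k with
  | zero => rfl
  | succ k ih =>
    rw [← ih]
    have h := thin_tot q ((thin q)^[k] u)
    rw [← h]
    refine Finset.sum_congr rfl fun D _ => Finset.sum_congr rfl fun a _ => ?_
    rw [Function.iterate_succ_apply']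

end

end Pool.Agent.Y616.QI
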