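import Pool.Agent.Y616.QI.Ct

/-!
# Alternating quantifiers in front of decision trees against nested parities
-/

set_option autoImplicit false
set_option linter.unusedSectionVars false

namespace Pool.Agent.Y616.QI

open Finset H568R2 Pool.Agent.H676 Pool.Agent.H620R2.Gauge

section

variable {I : Type*} [Fintype I] [DecidableEq I]

open Classical in
theorem alt {t : ℕ} (ht : 1 ≤ t) {q K : ℝ} (h0 : 0 ≤ q) (h1 : q < 1) (hK : 1 ≤ K)
    {u : Finset I → (I → Bool) → ℝ} (hu : BW K u) (m : ℕ)
    (F : List Bool → (I → Bool) → Bool) (k ℓ : ℕ)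
    (hF : ∀ y : List Bool, y.length ≤ ℓ + k * (2 * m + 1) → DTr t (F y)) :
    ∑ D, ∑ a, (thin q)^[k] u D a * (if ¬ ∀ y : List Bool, y.length ≤ ℓ → ∀ b,
      DTr t (rs (QF m F k b y) (rof D a)) then (1 : ℝ) else 0) ≤
      k * 2 ^ (ℓ + k * (2 * m + 1) + 2) * (4 * t * (gam q K * K)) ^ (t + 1) *
        ∑ D, ∑ a, u D a := by
  have hT0 : 0 ≤ ∑ D, ∑ a, u D a :=
    Finset.sum_nonneg fun D _ => Finset.sum_nonneg fun a _ => hu.nonneg D a
  have hgam : 0 ≤ gam q K := by
    unfold gam
    have : 0 ≤ q / (1 - q) := div_nonneg h0 (by linarith)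
    nlinarith
  induction k generalizing ℓ with
  | zero =>
    have hgood : ∀ ρ : Restr I, ∀ y : List Bool, y.length ≤ ℓ → ∀ b,
        DTr t (rs (QF m F 0 b y) ρ) := by
      intro ρ y hy b
      have h2 : DTr t (F y) := hF y (by omega)
      have h3 : QF m F 0 b y = F y := by
        cases b <;> rfl
      rw [h3]
      exact h2.rs
    have hz : ∀ (D : Finset I) (a : I → Bool), (thin q)^[0] u D a *
        (if ¬ ∀ y : List Bool, y.length ≤ ℓ → ∀ b, DTr t (rs (QF m F 0 b y) (rof D a))
          then (1 : ℝ) else 0) = 0 := by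
      intro D a
      rw [if_neg (not_not.2 (hgood _)), mul_zero]
    rw [Finset.sum_eq_zero fun D _ => Finset.sum_eq_zero fun a _ => hz D a]
    simp
  | succ k ih =>
    have hℓ : ℓ + (2 * m + 1) + k * (2 * m + 1) = ℓ + (k + 1) * (2 * m + 1) := by ring
    have ih' := ih (ℓ + (2 * m + 1)) (fun y hy => hF y (by rw [← hℓ]; exact hy))
    rw [hℓ] at ih'
    set ε : ℝ := (4 * t * (gam q K * K)) ^ (t + 1) with hε
    have hε0 : 0 ≤ ε := by positivity
    have huk := hu.iter h0 h1.le k
    set uk := (thin q)^[k] u with huk_def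
    -- unfold the last stage
    have e1 : ∑ D, ∑ a, (thin q)^[k + 1] u D a * (if ¬ ∀ y : List Bool, y.length ≤ ℓ → ∀ b,
        DTr t (rs (QF m F (k + 1) b y) (rof D a)) then (1 : ℝ) else 0) =
        ∑ D, ∑ a, uk D a * ∑ D' ∈ D.powerset, pr q D D' *
          (if ¬ ∀ y : List Bool, y.length ≤ ℓ → ∀ b,
            DTr t (rs (QF m F (k + 1) b y) (rof D' a)) then (1 : ℝ) else 0) := by
      rw [← thin_sum q uk]
      refine Finset.sum_congr rfl fun D _ => Finset.sum_congr rfl fun a _ => ?_
      rw [Function.iterate_succ_apply']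
    rw [e1]
    set S := W_strs ℓ ×ˢ (Finset.univ : Finset Bool) with hS
    set G : Restr I → Prop := fun ρ => ∀ y : List Bool, y.length ≤ ℓ + (2 * m + 1) → ∀ b,
      DTr t (rs (QF m F k b y) ρ) with hG
    -- pointwise bound
    have hpt : ∀ (D : Finset I) (a : I → Bool), ∑ D' ∈ D.powerset, pr q D D' *
          (if ¬ ∀ y : List Bool, y.length ≤ ℓ → ∀ b,
            DTr t (rs (QF m F (k + 1) b y) (rof D' a)) then (1 : ℝ) else 0) ≤
        (if ¬ G (rof D a) then (1 : ℝ) else 0) +
          ∑ p ∈ S, ∑ D' ∈ D.powerset, pr q D D' *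
            (if G (rof D a) ∧ ¬ DTr t (rs (QF m F (k + 1) p.2 p.1) (rof D' a))
              then (1 : ℝ) else 0) := by
      intro D a
      have hp0 := fun D' : Finset I => pr_nonneg h0 h1.le D D'
      by_cases hGa : G (rof D a)
      · rw [if_neg (not_not.2 hGa), zero_add, Finset.sum_comm]
        refine Finset.sum_le_sum fun D' _ => ?_
        rw [← Finset.mul_sum]
        refine mul_le_mul_of_nonneg_left ?_ (hp0 D')
        have hnn : ∀ p ∈ S, (0 : ℝ) ≤ (if G (rof D a) ∧
            ¬ DTr t (rs (QF m F (k + 1) p.2 p.1) (rof D' a)) then (1 : ℝ) else 0) := by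
          intro p _
          split_ifs <;> norm_num
        by_cases hGG : ∀ y : List Bool, y.length ≤ ℓ → ∀ b,
            DTr t (rs (QF m F (k + 1) b y) (rof D' a))
        · rw [if_neg (not_not.2 hGG)]
          exact Finset.sum_nonneg hnn
        · rw [if_pos hGG]
          have hex : ∃ y : List Bool, y.length ≤ ℓ ∧ ∃ b,
              ¬ DTr t (rs (QF m F (k + 1) b y) (rof D' a)) := by
            by_contra hcon
            apply hGG
            intro y hy b
            by_contra hJ
            exact hcon ⟨y, hy, b, hJ⟩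
          obtain ⟨y, hy, b, hJ⟩ := hex
          have hmem : ((y, b) : List Bool × Bool) ∈ S := by
            rw [hS, Finset.mem_product]
            exact ⟨W_mem_strs hy, Finset.mem_univ _⟩
          refine le_trans ?_ (Finset.single_le_sum hnn hmem)
          rw [if_pos ⟨hGa, hJ⟩]
      · rw [if_pos hGa]
        have h2 : ∑ D' ∈ D.powerset, pr q D D' *
          (if ¬ ∀ y : List Bool, y.length ≤ ℓ → ∀ b,
            DTr t (rs (QF m F (k + 1) b y) (rof D' a)) then (1 : ℝ) else 0) ≤ 1 := by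
          refine le_trans (Finset.sum_le_sum fun D' _ => ?_) (le_of_eq (pr_sum q D))
          have := hp0 D'
          split_ifs <;> linarith
        have h3 : 0 ≤ ∑ p ∈ S, ∑ D' ∈ D.powerset, pr q D D' *
            (if G (rof D a) ∧ ¬ DTr t (rs (QF m F (k + 1) p.2 p.1) (rof D' a))
              then (1 : ℝ) else 0) := by
          refine Finset.sum_nonneg fun p _ => Finset.sum_nonneg fun D' _ =>
            mul_nonneg (hp0 D') ?_
          split_ifs <;> norm_num
        linarith
    have hstage : ∀ p ∈ S, ∑ D, ∑ a, uk D a * ∑ D' ∈ D.powerset, pr q D D' *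
        (if G (rof D a) ∧ ¬ DTr t (rs (QF m F (k + 1) p.2 p.1) (rof D' a))
          then (1 : ℝ) else 0) ≤ ε * ∑ D, ∑ a, u D a := by
      rintro ⟨y, b⟩ hp
      rw [hS, Finset.mem_product] at hp
      have hy : y.length ≤ ℓ := W_length_of_mem hp.1
      have h2 := stage (k := t) h0 h1 hK huk ht (b := b) (QF m F (k + 1) b y) G (by
        intro σ hσ
        apply W_cert
        intro w hw c
        apply hσ
        rw [W_length_pairBits]
        show 2 * w.length + 1 + y.length ≤ ℓ + (2 * m + 1)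
        omega)
      rw [huk_def, iter_tot, ← huk_def] at h2
      exact h2
    have hsum : ∑ D, ∑ a, uk D a * ∑ D' ∈ D.powerset, pr q D D' *
          (if ¬ ∀ y : List Bool, y.length ≤ ℓ → ∀ b,
            DTr t (rs (QF m F (k + 1) b y) (rof D' a)) then (1 : ℝ) else 0) ≤
        ∑ D, ∑ a, uk D a * (if ¬ G (rof D a) then (1 : ℝ) else 0) +
          ∑ p ∈ S, ∑ D, ∑ a, uk D a * ∑ D' ∈ D.powerset, pr q D D' *
            (if G (rof D a) ∧ ¬ DTr t (rs (QF m F (k + 1) p.2 p.1) (rof D' a))
              then (1 : ℝ) else 0) := by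
      have h2 : ∑ p ∈ S, ∑ D, ∑ a, uk D a * ∑ D' ∈ D.powerset, pr q D D' *
            (if G (rof D a) ∧ ¬ DTr t (rs (QF m F (k + 1) p.2 p.1) (rof D' a))
              then (1 : ℝ) else 0) =
          ∑ D, ∑ a, uk D a * ∑ p ∈ S, ∑ D' ∈ D.powerset, pr q D D' *
            (if G (rof D a) ∧ ¬ DTr t (rs (QF m F (k + 1) p.2 p.1) (rof D' a))
              then (1 : ℝ) else 0) := by
        rw [Finset.sum_comm]
        refine Finset.sum_congr rfl fun D _ => ?_
        rw [Finset.sum_comm]
        refine Finset.sum_congr rfl fun a _ => ?_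
        rw [Finset.mul_sum]
      rw [h2, ← Finset.sum_add_distrib]
      refine Finset.sum_le_sum fun D _ => ?_
      rw [← Finset.sum_add_distrib]
      refine Finset.sum_le_sum fun a _ => ?_
      rw [← mul_add]
      exact mul_le_mul_of_nonneg_left (hpt D a) (huk.nonneg D a)
    refine hsum.trans ?_
    have hS2 : ∑ p ∈ S, ∑ D, ∑ a, uk D a * ∑ D' ∈ D.powerset, pr q D D' *
        (if G (rof D a) ∧ ¬ DTr t (rs (QF m F (k + 1) p.2 p.1) (rof D' a))
          then (1 : ℝ) else 0) ≤ 2 ^ (ℓ + 2) * (ε * ∑ D, ∑ a, u D a) := by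
      refine (Finset.sum_le_sum hstage).trans ?_
      rw [Finset.sum_const, nsmul_eq_mul]
      apply mul_le_mul_of_nonneg_right _ (mul_nonneg hε0 hT0)
      have hcard : S.card ≤ 2 ^ (ℓ + 2) := by
        rw [hS, Finset.card_product, Finset.card_univ, Fintype.card_bool]
        have := W_card_strs ℓ
        calc _ ≤ 2 ^ (ℓ + 1) * 2 := Nat.mul_le_mul_right _ this
          _ = _ := by ring
      exact_mod_cast hcard
    have h2 : (2 : ℝ) ^ (ℓ + 2) ≤ 2 ^ (ℓ + (k + 1) * (2 * m + 1) + 2) := by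
      apply pow_le_pow_right₀ (by norm_num)
      have : 0 ≤ (k + 1) * (2 * m + 1) := Nat.zero_le _
      omega
    have h3 := mul_le_mul_of_nonneg_right h2 (mul_nonneg hε0 hT0)
    push_cast
    calc _ ≤ (k : ℝ) * 2 ^ (ℓ + (k + 1) * (2 * m + 1) + 2) * ε * (∑ D, ∑ a, u D a) +
          2 ^ (ℓ + (k + 1) * (2 * m + 1) + 2) * (ε * (∑ D, ∑ a, u D a)) :=
          add_le_add ih' (hS2.trans h3)
      _ = _ := by ring

end

end Pool.Agent.Y616.QI
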