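import Pool.Agent.Y616.QI.Lv
import Pool.Agent.W911.IB.Pr

/-!
# The language of the parities of initial segments
-/

set_option autoImplicit false
set_option linter.unusedSectionVars false

namespace Pool.Agent.Y616.QI

open Finset H568R2 Pool.Agent.NPC Pool.Agent.H676 Pool.Agent.H620R2.Gauge Pool.Agent.W911.IB

/-- the question translated: `x ++ y` with `|x| = |y|` becomes `y` if `y` is before `x` -/
def trP (q : List Bool) : List Bool :=
  if valB (sh q) < valB (sh q.reverse).reverse then sh q else []

theorem poly_trP : Poly trP := by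
  have h1 := poly_sh
  have h2 : Poly (fun q : List Bool => valB (sh q)) := Poly.valBits h1
  have h3 : Poly (fun q : List Bool => valB (sh q.reverse).reverse) :=
    Poly.valBits (Poly.reverse (h1.comp (Poly.reverse Poly.id)))
  exact Poly.ite (Poly.decide_lt h2 h3) h1 (NPC.Poly.const _)

theorem valB_bitsOf (n : ℕ) : ∀ j < 2 ^ n, valB (bitsOf n j) = j := by
  induction n with
  | zero =>
    intro j hj
    have : j = 0 := by simpa using hj
    subst this
    rfl
  | succ n ih =>
    intro j hj
    rw [bitsOf, valB_cons, ih (j / 2) (by rw [pow_succ] at hj; omega)]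
    by_cases h : j % 2 = 1
    · simp [h]; omega
    · have : j % 2 = 0 := by omega
      simp [this]; omega

theorem trP_eq (x : List Bool) (j : ℕ) (hj : j < 2 ^ x.length) :
    trP (x ++ bitsOf x.length j) = if j < valB x then bitsOf x.length j else [] := by
  have h1 : sh (x ++ bitsOf x.length j) = bitsOf x.length j := by
    unfold sh
    rw [List.length_append, length_bitsOf]
    have : (x.length + x.length) / 2 = x.length := by omega
    rw [this, List.drop_left]
  have h2 : (sh (x ++ bitsOf x.length j).reverse).reverse = x := by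
    unfold sh
    rw [List.reverse_append, List.length_append, List.length_reverse, List.length_reverse,
      length_bitsOf]
    have : (x.length + x.length) / 2 = (bitsOf x.length j).reverse.length := by
      rw [List.length_reverse, length_bitsOf]; omega
    rw [this, List.drop_left, List.reverse_reverse]
  unfold trP
  rw [h1, h2, valB_bitsOf _ j hj]

/-- The language: `x` is in it if the number of the strings of the same length before `x` that are
in the oracle is odd (up to a correction that depends on the empty string only). -/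
def LA (A : Oracle) : Set (List Bool) := parLang (fun q => A (trP q))

theorem LA_pspace (A : Oracle) : IsPSPACE A (LA A) :=
  pspace_translate poly_trP (fun _ => rfl) (parLang_pspace _)

theorem mem_LA (A : Oracle) {n v : ℕ} (hv : v < 2 ^ n) : bitsOf n v ∈ LA A ↔
    Odd ((Finset.range (2 ^ n)).filter
      (fun j => A (if j < v then bitsOf n j else []) = true)).card := by
  unfold LA parLang
  rw [Set.mem_ofPred_eq, length_bitsOf]
  have h : (Finset.range (2 ^ n)).filter (fun j => A (trP (bitsOf n v ++ bitsOf n j)) = true) =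
      (Finset.range (2 ^ n)).filter (fun j => A (if j < v then bitsOf n j else []) = true) := by
    refine Finset.filter_congr fun j hj => ?_
    rw [Finset.mem_range] at hj
    have h1 := trP_eq (bitsOf n v) j (by rw [length_bitsOf]; exact hj)
    rw [length_bitsOf, valB_bitsOf n v hv] at h1
    rw [h1]
  rw [h]

theorem odd_flip (s : Finset ℕ) (f f' : ℕ → Bool) {i : ℕ} (hi : i ∈ s) (h1 : f' i = !f i)
    (h2 : ∀ j ∈ s, j ≠ i → f' j = f j) :
    Odd (s.filter (fun j => f' j = true)).card ↔ ¬ Odd (s.filter (fun j => f j = true)).card := by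
  have e : ∀ g : ℕ → Bool, (s.filter (fun j => g j = true)).card =
      ((s.erase i).filter (fun j => g j = true)).card + if g i = true then 1 else 0 := by
    intro g
    conv_lhs => rw [← Finset.insert_erase hi, Finset.filter_insert]
    split_ifs with h
    · rw [Finset.card_insert_of_notMem]
      simp
    · rfl
  have e2 : (s.erase i).filter (fun j => f' j = true) =
      (s.erase i).filter (fun j => f j = true) := by
    refine Finset.filter_congr fun j hj => ?_
    rw [Finset.mem_erase] at hj
    rw [h2 j hj.2 hj.1]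
  rw [e f', e f, e2, h1]
  cases f i <;> simp [Nat.odd_add_one]

/-- the position of a string of length `n` -/
def pos {N n : ℕ} (hN : 2 ^ (n + 1) ≤ N) (j : ℕ) : Fin N :=
  ⟨idx (bitsOf n j), by
    have h1 := idx_lt (bitsOf n j)
    rw [length_bitsOf] at h1
    omega⟩

theorem str_pos {N n : ℕ} (hN : 2 ^ (n + 1) ≤ N) (j : ℕ) : str (pos hN j) = bitsOf n j :=
  str_idx _

theorem pos_lvl {N n : ℕ} (hN : 2 ^ (n + 1) ≤ N) (j : ℕ) : pos hN j ∈ lvl N n := by
  rw [lvl, Finset.mem_filter]
  refine ⟨Finset.mem_univ _, ?_⟩
  rw [str_pos, length_bitsOf]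

theorem pos_inj {N n : ℕ} (hN : 2 ^ (n + 1) ≤ N) {j j' : ℕ} (hj : j < 2 ^ n) (hj' : j' < 2 ^ n)
    (h : pos hN j = pos hN j') : j = j' := by
  apply bitsOf_inj hj hj'
  rw [← str_pos hN, h, str_pos hN]

theorem orc_upd {N : ℕ} (a : Fin N → Bool) (i : Fin N) (b : Bool) (q : List Bool) :
    orc N (Function.update a i b) q = if q = str i then b else orc N a q := by
  unfold orc
  by_cases h : idx q < N
  · rw [dif_pos h, dif_pos h]
    by_cases hq : q = str i
    · have h2 : (⟨idx q, h⟩ : Fin N) = i := by
        apply Fin.ext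
        show idx q = i
        rw [hq, idx_str]
      rw [if_pos hq, h2, Function.update_self]
    · have h2 : (⟨idx q, h⟩ : Fin N) ≠ i := by
        intro h3
        apply hq
        rw [← h3]
        exact (str_idx q).symm
      rw [if_neg hq, Function.update_of_ne h2]
  · rw [dif_neg h, dif_neg h, if_neg]
    intro hq
    apply h
    rw [hq, idx_str]
    exact i.2

open Classical in
theorem LA_flip {N n : ℕ} (hN : 2 ^ (n + 1) ≤ N) (hn : 1 ≤ n) {v : ℕ} (hv : v < 2 ^ n)
    (a : Fin N → Bool) {i : ℕ} (hi : i < v) :
    decide (bitsOf n v ∈ LA (orc N (Function.update a (pos hN i) (!(a (pos hN i)))))) =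
      !decide (bitsOf n v ∈ LA (orc N a)) := by
  have h1 := odd_flip (Finset.range (2 ^ n))
    (fun j => orc N a (if j < v then bitsOf n j else []))
    (fun j => orc N (Function.update a (pos hN i) (!(a (pos hN i))))
      (if j < v then bitsOf n j else [])) (i := i) (Finset.mem_range.2 (by omega)) (by
      show orc N (Function.update a (pos hN i) (!(a (pos hN i)))) (if i < v then bitsOf n i else [])
        = !(orc N a (if i < v then bitsOf n i else []))
      rw [if_pos hi, orc_upd, str_pos, if_pos rfl]
      congr 1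
      unfold orc pos
      rw [dif_pos (by
        have h1 := idx_lt (bitsOf n i)
        rw [length_bitsOf] at h1
        omega)]) (by
      intro j hj hji
      rw [Finset.mem_range] at hj
      show orc N (Function.update a (pos hN i) (!(a (pos hN i)))) (if j < v then bitsOf n j else [])
        = orc N a (if j < v then bitsOf n j else [])
      rw [orc_upd, if_neg]
      rw [str_pos]
      split_ifs with h
      · intro h2
        exact hji (bitsOf_inj hj (by omega) h2)
      · intro h2
        have h3 := congrArg List.length h2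
        rw [length_bitsOf] at h3
        simp at h3
        omega)
  have h2 := mem_LA (orc N (Function.update a (pos hN i) (!(a (pos hN i))))) hv
  have h3 := mem_LA (orc N a) hv
  have h4 : bitsOf n v ∈ LA (orc N (Function.update a (pos hN i) (!(a (pos hN i))))) ↔
      ¬ bitsOf n v ∈ LA (orc N a) := by
    rw [h2, h3]
    exact h1
  rw [← decide_not]
  exact decide_eq_decide.2 h4

open Classical in
theorem LA_keep {N n : ℕ} (hN : 2 ^ (n + 1) ≤ N) (hn : 1 ≤ n) {v : ℕ} (hv : v < 2 ^ n)
    (a : Fin N → Bool) {i : ℕ} (hi : v ≤ i) (hi2 : i < 2 ^ n) (b : Bool) :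
    decide (bitsOf n v ∈ LA (orc N (Function.update a (pos hN i) b))) =
      decide (bitsOf n v ∈ LA (orc N a)) := by
  refine decide_eq_decide.2 ?_
  rw [mem_LA _ hv, mem_LA _ hv]
  have h : (Finset.range (2 ^ n)).filter (fun j => orc N (Function.update a (pos hN i) b)
      (if j < v then bitsOf n j else []) = true) =
      (Finset.range (2 ^ n)).filter (fun j => orc N a (if j < v then bitsOf n j else []) = true)
      := by
    refine Finset.filter_congr fun j hj => ?_
    rw [Finset.mem_range] at hj
    rw [orc_upd, if_neg]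
    rw [str_pos]
    split_ifs with h
    · intro h2
      have := bitsOf_inj hj hi2 h2
      omega
    · intro h2
      have h3 := congrArg List.length h2
      rw [length_bitsOf] at h3
      simp at h3
      omega
  rw [h]

/-- cutting a range into segments -/
theorem segments (c : ℕ → ℝ) (h0 : ∀ j, 0 ≤ c j) (h1 : ∀ j, c j ≤ 1) (B M : ℕ) {θ : ℝ}
    (hθ : 0 ≤ θ) (h : M * (θ + 1) ≤ ∑ j ∈ Finset.range B, c j) :
    ∃ v : ℕ → ℕ, (∀ l ≤ M, v l ≤ B) ∧ (∀ l < M, v l ≤ v (l + 1)) ∧
      ∀ l < M, θ ≤ ∑ j ∈ Finset.Ico (v l) (v (l + 1)), c j := by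
  classical
  have hmono : ∀ x y : ℕ, x ≤ y → ∑ j ∈ Finset.range x, c j ≤ ∑ j ∈ Finset.range y, c j := by
    intro x y hxy
    exact Finset.sum_le_sum_of_subset_of_nonneg (Finset.range_subset_range.2 hxy) fun j _ _ => h0 j
  have hex : ∀ l ≤ M, ∃ x, (l : ℝ) * (θ + 1) ≤ ∑ j ∈ Finset.range x, c j := by
    intro l hl
    refine ⟨B, le_trans ?_ h⟩
    have : (l : ℝ) ≤ M := by exact_mod_cast hl
    nlinarith
  let v : ℕ → ℕ := fun l => if hl : l ≤ M then Nat.find (hex l hl) else 0
  have hv : ∀ l (hl : l ≤ M), v l = Nat.find (hex l hl) := fun l hl => by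
    show (if hl : l ≤ M then Nat.find (hex l hl) else 0) = _
    rw [dif_pos hl]
  have hvle : ∀ l ≤ M, v l ≤ B := by
    intro l hl
    rw [hv l hl]
    apply Nat.find_min'
    refine le_trans ?_ h
    have : (l : ℝ) ≤ M := by exact_mod_cast hl
    nlinarith
  have hvlow : ∀ l ≤ M, (l : ℝ) * (θ + 1) ≤ ∑ j ∈ Finset.range (v l), c j := by
    intro l hl
    rw [hv l hl]
    exact Nat.find_spec (hex l hl)
  have hvup : ∀ l ≤ M, ∑ j ∈ Finset.range (v l), c j ≤ (l : ℝ) * (θ + 1) + 1 := by
    intro l hl
    rcases Nat.eq_zero_or_pos (v l) with h2 | h2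
    · rw [h2, Finset.range_zero, Finset.sum_empty]
      positivity
    · obtain ⟨y, hy⟩ : ∃ y, v l = y + 1 := ⟨v l - 1, by omega⟩
      have h3 : y < Nat.find (hex l hl) := by rw [← hv l hl]; omega
      have h4 := Nat.find_min (hex l hl) h3
      rw [hy, Finset.sum_range_succ]
      have := h1 y
      push Not at h4
      linarith
  have hvm : ∀ l < M, v l ≤ v (l + 1) := by
    intro l hl
    rw [hv l hl.le]
    apply Nat.find_min'
    refine le_trans ?_ (hvlow (l + 1) hl)
    push_cast
    nlinarith
  refine ⟨v, hvle, hvm, fun l hl => ?_⟩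
  have h2 := Finset.sum_range_add_sum_Ico c (hvm l hl)
  have h3 := hvlow (l + 1) hl
  have h4 := hvup l hl.le
  push_cast at h3
  linarith

/-- the oracles for which the hierarchy algorithm is right for all inputs of length `n` -/
def CCn (M : Alg) (p : Polynomial ℕ) (k n : ℕ) : Set Oracle :=
  {A | ∀ v < 2 ^ n, (Quant (p.eval n) (fun y => (M.out A y).getD []) k true (bitsOf n v) ↔
    bitsOf n v ∈ LA A)}

theorem ccn_local (M : Alg) (p : Polynomial ℕ) (k : ℕ) : ∃ Q : Polynomial ℕ, ∀ n,
    n ≤ Q.eval n ∧ LocalAt (Q.eval n) (CCn M p k n) := by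
  obtain ⟨qb, hqb⟩ := Alg.out_local M
  refine ⟨qb.comp (Lp p k) + Polynomial.X, fun n => ?_⟩
  have hQ : (qb.comp (Lp p k) + Polynomial.X).eval n = qb.eval ((Lp p k).eval n) + n := by
    simp [Polynomial.eval_comp]
  refine ⟨by omega, ?_⟩
  rw [hQ]
  intro A A' hA
  unfold CCn
  rw [Set.mem_ofPred_eq, Set.mem_ofPred_eq]
  refine forall_congr' fun v => forall_congr' fun hv => ?_
  have h1 : bitsOf n v ∈ LA A ↔ bitsOf n v ∈ LA A' := by
    rw [mem_LA _ hv, mem_LA _ hv]
    have : ∀ j, A (if j < v then bitsOf n j else []) = A' (if j < v then bitsOf n j else []) := by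
      intro j
      apply hA
      split_ifs
      · rw [length_bitsOf]; omega
      · simp
    simp only [this]
  have h2 : Quant (p.eval n) (fun y => (M.out A y).getD []) k true (bitsOf n v) ↔
      Quant (p.eval n) (fun y => (M.out A' y).getD []) k true (bitsOf n v) := by
    refine quant_congr ((Lp p k).eval n) (fun y hy => ?_) k true _ ?_
    · obtain ⟨Q, _, hQl, hQA⟩ := hqb A y
      have h3 : M.out A' y = M.out A y := by
        apply hQA
        intro q hq
        refine (hA q ?_).symm
        have h4 := (hQl q hq).trans (eval_mono _ hy)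
        omega
      rw [h3]
    · rw [eval_Lp, length_bitsOf]
  rw [h1, h2]

open Classical in
theorem ccn_qf (M : Alg) (p : Polynomial ℕ) (k : ℕ) {N n : ℕ}
    (a : Fin N → Bool) (h : orc N a ∈ CCn M p k n) {v : ℕ} (hv : v < 2 ^ n) :
      QF (p.eval n) (leaf M N) k true (bitsOf n v) a = decide (bitsOf n v ∈ LA (orc N a)) := by
  have h1 := h v hv
  have h2 := quant_iff (N := N) (m := p.eval n) (A := orc N a) (M := M)
    (V := fun y => (M.out (orc N a) y).getD []) ((Lp p k).eval n) (by
      intro y _
      rw [pre_orc]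
      unfold leaf
      rw [decide_eq_true_eq]
      cases M.out (orc N a) y <;> simp) k true (bitsOf n v) (by
      rw [eval_Lp, length_bitsOf])
  rw [pre_orc] at h2
  rw [h2] at h1
  rw [Bool.eq_iff_iff, decide_eq_true_eq]
  exact h1

end Pool.Agent.Y616.QI
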