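import Pool.Agent.Y616.QI.Lb

/-!
# The bound for one level
-/

set_option autoImplicit false
set_option linter.unusedSectionVars false

namespace Pool.Agent.Y616.QI

open Finset H568R2 Pool.Agent.H676 Pool.Agent.H620R2.Gauge

section

variable {I : Type*} [Fintype I] [DecidableEq I]

theorem ov_rof (D : Finset I) (a : I → Bool) : ov (rof D a) a = a := by
  funext i
  unfold ov rof
  by_cases h : i ∈ D <;> simp [h]

open Classical in
theorem nested_sum {K : ℝ} (hK : 1 ≤ K) {u : Finset I → (I → Bool) → ℝ} (hu : BW K u) {t M : ℕ}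
    (g P : ℕ → (I → Bool) → Bool) (J : ℕ → Finset I) (G : Restr I → Prop)
    (hG : ∀ σ, G σ → ∀ l < M, DTr t (rs (g l) σ))
    (hP1 : ∀ l < M, ∀ a, ∀ i ∈ J l, P l (Function.update a i (!(a i))) = !(P l a))
    (hP2 : ∀ l < M, ∀ l' < l, ∀ a, ∀ i ∈ J l, P l' (Function.update a i (!(a i))) = P l' a) :
    ∑ D, ∑ a, u D a * (if G (rof D a) ∧ (∀ l < M, M * t < (D ∩ J l).card) ∧
      ∀ l < M, g l a = P l a then (1 : ℝ) else 0) ≤ (K / (K + 1)) ^ M * ∑ D, ∑ a, u D a := by
  rw [Finset.mul_sum]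
  refine Finset.sum_le_sum fun D _ => ?_
  have hfib : ∀ F : (I → Bool) → ℝ, ∑ a, F a = ∑ c : I → Bool, ∑ a ∈ univ.filter
      (fun a => cz D a = c), F a := fun F => (Finset.sum_fiberwise univ (cz D) F).symm
  have hr0 : 0 ≤ (K / (K + 1)) ^ M := by
    have : 0 ≤ K := by linarith
    positivity
  rw [hfib (fun a => u D a * (if G (rof D a) ∧ (∀ l < M, M * t < (D ∩ J l).card) ∧
      ∀ l < M, g l a = P l a then (1 : ℝ) else 0)), hfib (fun a => u D a), Finset.mul_sum]
  refine Finset.sum_le_sum fun c _ => ?_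
  have hright : 0 ≤ (K / (K + 1)) ^ M * ∑ a ∈ univ.filter (fun a => cz D a = c), u D a :=
    mul_nonneg hr0 (Finset.sum_nonneg fun a _ => hu.nonneg _ _)
  have e1 : ∀ F : (I → Bool) → ℝ, ∑ a ∈ univ.filter (fun a => cz D a = c), F a =
      ∑ a, (if cz D a = c then F a else 0) := fun F => Finset.sum_filter _ _
  by_cases hgood : G (rof D c) ∧ ∀ l < M, M * t < (D ∩ J l).card
  · have h2 := nested hK (D := D) (v := fun a => if cz D a = c then u D a else 0)
      (fun a => by
        show (0 : ℝ) ≤ if cz D a = c then u D a else 0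
        split_ifs
        · exact hu.nonneg _ _
        · exact le_refl _)
      (fun a i b hi => by
        show (if cz D (Function.update a i b) = c then u D (Function.update a i b) else 0) ≤
          K * (if cz D a = c then u D a else 0)
        rw [cz_update a hi]
        split_ifs
        · exact hu.bal D a i b hi
        · simp) (t := t) (M := M) (fun l => rs (g l) (rof D c)) P
      (fun l hl => hG _ hgood.1 l hl) (fun l => D ∩ J l) (fun l _ => Finset.inter_subset_left)
      hgood.2 (fun l hl a i hi => hP1 l hl a i (Finset.mem_inter.1 hi).2)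
      (fun l hl l' hl' a i hi => hP2 l hl l' hl' a i (Finset.mem_inter.1 hi).2) M le_rfl
    rw [e1, e1]
    refine le_trans (Finset.sum_le_sum fun a _ => ?_) h2
    by_cases hc : cz D a = c
    · simp only [hc, if_true]
      refine mul_le_mul_of_nonneg_left ?_ (hu.nonneg D a)
      have h3 : ∀ l, rs (g l) (rof D c) a = g l a := by
        intro l
        rw [← hc, rof_cz]
        unfold rs
        rw [ov_rof]
      simp only [h3]
      split_ifs with h4 h5
      · exact le_refl _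
      · exact absurd h4.2.2 h5
      · norm_num
      · exact le_refl _
    · simp [hc]
  · refine le_trans (le_of_eq ?_) hright
    refine Finset.sum_eq_zero fun a ha => ?_
    rw [Finset.mem_filter] at ha
    have h4 : rof D a = rof D c := by rw [← ha.2, rof_cz]
    rw [h4, if_neg, mul_zero]
    rintro ⟨h5, h6, _⟩
    exact hgood ⟨h5, h6⟩

open Classical in
/-- The bound for one level. -/
theorem level {t : ℕ} (ht : 1 ≤ t) {q K : ℝ} (h0 : 0 ≤ q) (h1 : q < 1) (hK : 1 ≤ K)
    {w : (I → Bool) → ℝ} (hw : ∀ a, 0 ≤ w a) {S : Finset I} {r : I → Bool → ℝ} {e : I → ℝ}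
    (hr : ∀ i ∈ S, ∀ b, 0 ≤ r i b ∧ r i b ≤ 1) (he : ∀ i ∈ S, ∀ b, 0 ≤ e i ∧ e i ≤ r i b)
    (hc : ∀ i ∈ S, ∀ a b, w (Function.update a i b) * r i b ≤
      K * (w (Function.update a i (!b)) * r i (!b))) (m : ℕ)
    (F : List Bool → (I → Bool) → Bool) (k ℓ : ℕ)
    (hF : ∀ y : List Bool, y.length ≤ ℓ + k * (2 * m + 1) → DTr t (F y)) (M : ℕ)
    (ys : ℕ → List Bool) (hys : ∀ l, (ys l).length ≤ ℓ) (P : ℕ → (I → Bool) → Bool)
    (J : ℕ → Finset I) (hJS : ∀ l < M, J l ⊆ S)
    (hP1 : ∀ l < M, ∀ a, ∀ i ∈ J l, P l (Function.update a i (!(a i))) = !(P l a))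
    (hP2 : ∀ l < M, ∀ l' < l, ∀ a, ∀ i ∈ J l, P l' (Function.update a i (!(a i))) = P l' a)
    {θ : ℝ} (hθ : ∀ l < M, θ ≤ ∑ i ∈ J l, e i) :
    ∑ a, w a * (if ∀ l < M, QF m F k true (ys l) a = P l a then (1 : ℝ) else 0) ≤
      (k * 2 ^ (ℓ + k * (2 * m + 1) + 2) * (4 * t * (gam q K * K)) ^ (t + 1) +
        M * (2 ^ (M * t) * Real.exp (-(q ^ k / 2 * θ))) + (K / (K + 1)) ^ M) * ∑ a, w a := by
  have hu := u0_bw hK hw hr hc
  have hU := hu.iter h0 h1.le k
  set U := (thin q)^[k] (u0 w S r) with hU_def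
  set G : Restr I → Prop := fun ρ => ∀ y : List Bool, y.length ≤ ℓ → ∀ b,
      DTr t (rs (QF m F k b y) ρ) with hG
  have hmarg : ∀ φ : (I → Bool) → ℝ, ∑ a, w a * φ a = ∑ D, ∑ a, U D a * φ a := by
    intro φ
    rw [hU_def, iter_marg, u0_marg]
  have htot : ∑ D, ∑ a, u0 w S r D a = ∑ a, w a := by
    have := u0_marg w S r (fun _ => 1)
    simpa using this
  have hUtot : ∑ D, ∑ a, U D a = ∑ a, w a := by
    rw [hU_def, iter_tot, htot]
  rw [hmarg]
  have hpt : ∀ (D : Finset I) (a : I → Bool),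
      (if ∀ l < M, QF m F k true (ys l) a = P l a then (1 : ℝ) else 0) ≤
      (if ¬ G (rof D a) then (1 : ℝ) else 0) +
      ∑ l ∈ Finset.range M, (if (D ∩ J l).card ≤ M * t then (1 : ℝ) else 0) +
      (if G (rof D a) ∧ (∀ l < M, M * t < (D ∩ J l).card) ∧
        ∀ l < M, QF m F k true (ys l) a = P l a then (1 : ℝ) else 0) := by
    intro D a
    have n1 : (0 : ℝ) ≤ (if ¬ G (rof D a) then (1 : ℝ) else 0) := by split_ifs <;> norm_num
    have n2 : ∀ l ∈ Finset.range M, (0 : ℝ) ≤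
        (if (D ∩ J l).card ≤ M * t then (1 : ℝ) else 0) := by
      intro l _
      split_ifs <;> norm_num
    have n2' := Finset.sum_nonneg n2
    have n3 : (0 : ℝ) ≤ (if G (rof D a) ∧ (∀ l < M, M * t < (D ∩ J l).card) ∧
        ∀ l < M, QF m F k true (ys l) a = P l a then (1 : ℝ) else 0) := by
      split_ifs <;> norm_num
    by_cases hE : ∀ l < M, QF m F k true (ys l) a = P l a
    · rw [if_pos hE]
      by_cases hGa : G (rof D a)
      · by_cases hst : ∀ l < M, M * t < (D ∩ J l).card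
        · rw [if_pos (⟨hGa, hst, hE⟩ : G (rof D a) ∧ (∀ l < M, M * t < (D ∩ J l).card) ∧
            ∀ l < M, QF m F k true (ys l) a = P l a)]
          linarith
        · push Not at hst
          obtain ⟨l, hl, hst⟩ := hst
          have h3 := Finset.single_le_sum n2 (Finset.mem_range.2 hl)
          rw [if_pos hst] at h3
          linarith
      · rw [if_pos hGa]
        linarith
    · rw [if_neg hE]
      linarith
  have hsplit : ∑ D, ∑ a, U D a *
      (if ∀ l < M, QF m F k true (ys l) a = P l a then (1 : ℝ) else 0) ≤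
      ∑ D, ∑ a, U D a * (if ¬ G (rof D a) then (1 : ℝ) else 0) +
      ∑ l ∈ Finset.range M, ∑ D, ∑ a, U D a *
        (if (D ∩ J l).card ≤ M * t then (1 : ℝ) else 0) +
      ∑ D, ∑ a, U D a * (if G (rof D a) ∧ (∀ l < M, M * t < (D ∩ J l).card) ∧
        ∀ l < M, QF m F k true (ys l) a = P l a then (1 : ℝ) else 0) := by
    have h2 : ∑ l ∈ Finset.range M, ∑ D, ∑ a, U D a *
        (if (D ∩ J l).card ≤ M * t then (1 : ℝ) else 0) =
        ∑ D, ∑ a, U D a * ∑ l ∈ Finset.range M,
          (if (D ∩ J l).card ≤ M * t then (1 : ℝ) else 0) := by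
      rw [Finset.sum_comm]
      refine Finset.sum_congr rfl fun D _ => ?_
      rw [Finset.sum_comm]
      refine Finset.sum_congr rfl fun a _ => ?_
      rw [Finset.mul_sum]
    rw [h2, ← Finset.sum_add_distrib, ← Finset.sum_add_distrib]
    refine Finset.sum_le_sum fun D _ => ?_
    rw [← Finset.sum_add_distrib, ← Finset.sum_add_distrib]
    refine Finset.sum_le_sum fun a _ => ?_
    rw [← mul_add, ← mul_add]
    exact mul_le_mul_of_nonneg_left (hpt D a) (hU.nonneg D a)
  refine hsplit.trans ?_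
  have b1 := alt ht h0 h1 hK hu m F k ℓ hF
  rw [htot, ← hU_def] at b1
  have b2 : ∑ l ∈ Finset.range M, ∑ D, ∑ a, U D a *
        (if (D ∩ J l).card ≤ M * t then (1 : ℝ) else 0) ≤
      M * (2 ^ (M * t) * Real.exp (-(q ^ k / 2 * θ)) * ∑ a, w a) := by
    have hW : 0 ≤ ∑ a, w a := Finset.sum_nonneg fun a _ => hw a
    refine (Finset.sum_le_card_nsmul _ _ (2 ^ (M * t) * Real.exp (-(q ^ k / 2 * θ)) * ∑ a, w a)
      fun l hl => ?_).trans (le_of_eq ?_)
    · rw [Finset.mem_range] at hl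
      refine (few_free hw hr he h0 h1.le k (J l) (hJS l hl) (M * t)
        (fun D a => hU.nonneg D a)).trans ?_
      refine mul_le_mul_of_nonneg_right ?_ hW
      refine mul_le_mul_of_nonneg_left (Real.exp_le_exp.2 ?_) (by positivity)
      have h5 : q ^ k / 2 * θ ≤ q ^ k / 2 * ∑ i ∈ J l, e i :=
        mul_le_mul_of_nonneg_left (hθ l hl) (by positivity)
      linarith
    · rw [Finset.card_range, nsmul_eq_mul]
  have b3 := nested_sum hK hU (t := t) (M := M) (fun l => QF m F k true (ys l)) P J G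
    (fun σ hσ l _ => hσ (ys l) (hys l) true) hP1 hP2
  rw [hUtot] at b3
  have b1' : ∑ D, ∑ a, U D a * (if ¬ G (rof D a) then (1 : ℝ) else 0) ≤
      k * 2 ^ (ℓ + k * (2 * m + 1) + 2) * (4 * t * (gam q K * K)) ^ (t + 1) * ∑ a, w a := b1
  calc _ ≤ k * 2 ^ (ℓ + k * (2 * m + 1) + 2) * (4 * t * (gam q K * K)) ^ (t + 1) * ∑ a, w a +
        M * (2 ^ (M * t) * Real.exp (-(q ^ k / 2 * θ)) * ∑ a, w a) +
        (K / (K + 1)) ^ M * ∑ a, w a := add_le_add (add_le_add b1' b2) b3
    _ = _ := by ring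

end

end Pool.Agent.Y616.QI
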