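import Pool.Agent.Y616.QI.Ms
import Pool.Agent.H620R2.Gauge.U2

/-!
# Oracles with quasi-independent bits: the main theorems
-/

set_option autoImplicit false
set_option linter.unusedSectionVars false

namespace Pool.Agent.Y616.QI

open MeasureTheory Pool.Agent.NPC Pool.Agent.H620R2.Gauge Pool.Agent.W911.IB

section

variable {μ : Measure Oracle} [IsProbabilityMeasure μ]

theorem large_of {κ : ℕ → ℕ} {p : List Bool → unitInterval}
    (h : ∀ w, Odds μ w (p w) (κ w.length))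
    (hq : ¬ ∃ P : Polynomial ℕ, ∀ n, dev p n ≤ ((P.eval (n + κ n) : ℕ) : ℝ)) : Large μ := by
  intro P n₀
  push Not at hq
  obtain ⟨n, hn⟩ := hq (P + Polynomial.C (2 ^ n₀))
  rw [Polynomial.eval_add, Polynomial.eval_C] at hn
  push_cast at hn
  refine ⟨n, κ n, p, ?_, fun w hw => ?_, by have : (0 : ℝ) < 2 ^ n₀ := by positivity
                                            linarith⟩
  · by_contra hcon
    have h1 := dev_le p n
    have h2 : (2 : ℝ) ^ n ≤ 2 ^ n₀ := pow_le_pow_right₀ (by norm_num) (not_lt.1 hcon)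
    have h3 : (0 : ℝ) ≤ ((P.eval (n + κ n) : ℕ) : ℝ) := Nat.cast_nonneg _
    linarith
  · have := h w
    rwa [hw] at this

theorem few_of {κ : ℕ → ℕ} {P : Polynomial ℕ}
    {p : List Bool → unitInterval} (h : ∀ w, Odds μ w (p w) (κ w.length))
    (hP : ∀ n, κ n * dev p n ≤ ((P.eval n : ℕ) : ℝ)) : ∀ᵐ A ∂μ, Few A (modeO p) := by
  refine few_ae' (modeO p) (2 * P) fun n => ?_
  have h1 : ∀ v ∈ (Finset.univ : Finset (Fin n → Bool)),
      μ.real {A | A (List.ofFn v) ≠ modeO p (List.ofFn v)} ≤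
      2 * κ n * ee (p (List.ofFn v)) := by
    intro v _
    have h2 := dev_prob (h (List.ofFn v))
    rw [List.length_ofFn] at h2
    exact h2
  refine (Finset.sum_le_sum h1).trans ?_
  rw [← Finset.mul_sum]
  have h3 : ∑ v : Fin n → Bool, ee (p (List.ofFn v)) = dev p n := rfl
  rw [h3, Polynomial.eval_mul]
  have h5 := hP n
  push_cast
  simp only [Polynomial.eval_ofNat, Nat.cast_ofNat]
  linarith

/-- the first case -/
theorem case1 {κ : ℕ → ℕ} {p : List Bool → unitInterval}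
    (h : ∀ w, Odds μ w (p w) (κ w.length))
    (hP : ∃ P : Polynomial ℕ, ∀ n, κ n * dev p n ≤ ((P.eval n : ℕ) : ℝ)) :
    ∀ᵐ A ∂μ, (Same A ↔ Same (modeO p)) := by
  obtain ⟨P, hP⟩ := hP
  filter_upwards [few_of h hP] with A hA
  exact same_of_few hA

/-- the second case -/
theorem case2 {κ : ℕ → ℕ} {p : List Bool → unitInterval}
    (h : ∀ w, Odds μ w (p w) (κ w.length))
    (hq : ¬ ∃ P : Polynomial ℕ, ∀ n, dev p n ≤ ((P.eval (n + κ n) : ℕ) : ℝ)) :
    ∀ᵐ A ∂μ, ∃ L, IsPSPACE A L ∧ ¬ IsPHpoly A L := (large_of h hq).main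

theorem main1 {κ : ℕ → ℕ} (hκ : ∃ P : Polynomial ℕ, ∀ n, κ n ≤ P.eval n)
    {p : List Bool → unitInterval} (h : ∀ w, Odds μ w (p w) (κ w.length)) :
    ((∀ᵐ A ∂μ, Same A) ↔
      Same (modeO p) ∧ ∃ P : Polynomial ℕ, ∀ n, dev p n ≤ ((P.eval n : ℕ) : ℝ)) ∧
    ((¬ ∀ᵐ A ∂μ, Same A) → ∀ᵐ A ∂μ, ∃ L, IsPSPACE A L ∧ ¬ IsPHpoly A L) := by
  obtain ⟨Pκ, hκ⟩ := hκ
  have hκR : ∀ n, (κ n : ℝ) ≤ ((Pκ.eval n : ℕ) : ℝ) := fun n => by exact_mod_cast hκ n
  have hd0 : ∀ n, 0 ≤ dev p n := fun n => Finset.sum_nonneg fun v _ => ee_nonneg _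
  have hne : ∀ {R : Oracle → Prop}, (∀ᵐ A ∂μ, ¬ R A) → ¬ ∀ᵐ A ∂μ, R A := by
    intro R h1 h2
    have h3 : ∀ᵐ _A ∂μ, False := by
      filter_upwards [h1, h2] with A h4 h5
      exact h4 h5
    rw [ae_iff] at h3
    simp at h3
  by_cases hP : ∃ P : Polynomial ℕ, ∀ n, dev p n ≤ ((P.eval n : ℕ) : ℝ)
  · obtain ⟨P, hP'⟩ := hP
    have hfew := few_of (P := Pκ * P) h fun n => by
      rw [Polynomial.eval_mul]
      push_cast
      exact mul_le_mul (hκR n) (hP' n) (hd0 n) (Nat.cast_nonneg _)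
    by_cases hs : Same (modeO p)
    · have h3 : ∀ᵐ A ∂μ, Same A := by
        filter_upwards [hfew] with A hA
        exact (same_of_few hA).2 hs
      exact ⟨⟨fun _ => ⟨hs, P, hP'⟩, fun _ => h3⟩, fun h => absurd h3 h⟩
    · have h3 : ∀ᵐ A ∂μ, ¬ Same A := by
        filter_upwards [hfew] with A hA
        exact fun h => hs ((same_of_few hA).1 h)
      refine ⟨⟨fun h => absurd h (hne h3), fun h => absurd h.1 hs⟩, fun _ => ?_⟩
      filter_upwards [h3] with A hA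
      exact exists_poly_of_not_same hA
  · have h2 := case2 h (fun ⟨P, hP'⟩ => hP ⟨P.comp (Polynomial.X + Pκ), fun n => by
      refine (hP' n).trans ?_
      rw [Polynomial.eval_comp, Polynomial.eval_add, Polynomial.eval_X]
      exact_mod_cast eval_mono P (by have := hκ n; omega)⟩)
    have h3 : ∀ᵐ A ∂μ, ¬ Same A := by
      filter_upwards [h2] with A hA
      rintro hs
      obtain ⟨L, hL, hL'⟩ := hA
      exact hL' ((hs L).2 hL).isPHpoly
    exact ⟨⟨fun h => absurd h (hne h3), fun h => absurd h.2 hP⟩, fun _ => h2⟩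

/-! ### Finite energy -/

theorem poly_le (P : Polynomial ℕ) : ∃ c d : ℕ, ∀ x : ℕ, 1 ≤ x → P.eval x ≤ c * x ^ d := by
  refine ⟨∑ i ∈ Finset.range (P.natDegree + 1), P.coeff i, P.natDegree, fun x hx => ?_⟩
  rw [Polynomial.eval_eq_sum_range, Finset.sum_mul]
  refine Finset.sum_le_sum fun i hi => ?_
  rw [Finset.mem_range] at hi
  exact Nat.mul_le_mul_left _ (Nat.pow_le_pow_right hx (by omega))

/-- `P (n + ⌈2 ^ (ε n)⌉) ≤ 2 ^ (n - 1)` for large `n` if `ε` is small. -/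
theorem exists_eps (P : Polynomial ℕ) : ∃ ε : ℝ, 0 < ε ∧ ∃ n₁ : ℕ, ∀ n : ℕ, n₁ ≤ n →
    ((P.eval (n + ⌈(2 : ℝ) ^ (ε * n)⌉₊) : ℕ) : ℝ) ≤ 2 ^ n / 2 := by
  obtain ⟨c, d, hcd⟩ := poly_le P
  refine ⟨1 / (2 * (d + 1)), by positivity, ?_⟩
  set ε : ℝ := 1 / (2 * (d + 1)) with hε
  have hε0 : 0 < ε := by positivity
  -- n ≤ 2 ^ (ε n) for large n, and `2 c 3 ^ d ≤ 2 ^ (n / 2)`
  have h1 : ∀ᶠ n : ℕ in Filter.atTop, (n : ℝ) ≤ 2 ^ (ε * n) := by
    have h2 : Filter.Tendsto (fun x : ℝ => x * Real.exp (-(ε * Real.log 2) * x)) Filter.atTop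
        (nhds 0) := by
      have h3 := Real.tendsto_pow_mul_exp_neg_atTop_nhds_zero 1
      have h4 : Filter.Tendsto (fun x : ℝ => (ε * Real.log 2) * x) Filter.atTop Filter.atTop :=
        Filter.tendsto_id.const_mul_atTop (mul_pos hε0 (Real.log_pos (by norm_num)))
      have h5 := (h3.comp h4).const_mul (1 / (ε * Real.log 2))
      rw [mul_zero] at h5
      refine h5.congr fun x => ?_
      have hne : ε * Real.log 2 ≠ 0 := (mul_pos hε0 (Real.log_pos (by norm_num))).ne'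
      simp only [Function.comp, pow_one]
      field_simp
    have h3 := h2.comp tendsto_natCast_atTop_atTop
    have h4 := h3.eventually (gt_mem_nhds (show (0 : ℝ) < 1 by norm_num))
    filter_upwards [h4] with n hn
    simp only [Function.comp] at hn
    rw [Real.rpow_def_of_pos (by norm_num)]
    have h5 : Real.exp (-(ε * Real.log 2) * n) * Real.exp (Real.log 2 * (ε * n)) = 1 := by
      rw [← Real.exp_add]
      have : -(ε * Real.log 2) * n + Real.log 2 * (ε * n) = 0 := by ring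
      rw [this, Real.exp_zero]
    have h6 := mul_le_mul_of_nonneg_right hn.le (Real.exp_pos (Real.log 2 * (ε * n))).le
    rw [one_mul, mul_assoc, h5, mul_one] at h6
    exact h6
  have h2 : ∀ᶠ n : ℕ in Filter.atTop, 2 * (c : ℝ) * 3 ^ d ≤ 2 ^ ((n : ℝ) / 2) := by
    have h3 : Filter.Tendsto (fun n : ℕ => (2 : ℝ) ^ ((n : ℝ) / 2)) Filter.atTop Filter.atTop := by
      have h4 : Filter.Tendsto (fun x : ℝ => (2 : ℝ) ^ x) Filter.atTop Filter.atTop :=
        tendsto_rpow_atTop_of_base_gt_one _ (by norm_num)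
      exact h4.comp (tendsto_natCast_atTop_atTop.atTop_div_const (by norm_num))
    exact h3.eventually_ge_atTop _
  obtain ⟨n₁, hn₁⟩ := Filter.eventually_atTop.1 (h1.and h2)
  refine ⟨n₁ + 1, fun n hn => ?_⟩
  obtain ⟨h3, h4⟩ := hn₁ n (by omega)
  set y : ℝ := (2 : ℝ) ^ (ε * n) with hy
  have hy1 : 1 ≤ y := Real.one_le_rpow (by norm_num) (by positivity)
  have h5 : ((n + ⌈y⌉₊ : ℕ) : ℝ) ≤ 3 * y := by
    have h6 := (Nat.ceil_lt_add_one (by linarith : 0 ≤ y)).le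
    push_cast
    linarith
  have h6 := hcd (n + ⌈y⌉₊) (by omega)
  have h7 : ((P.eval (n + ⌈y⌉₊) : ℕ) : ℝ) ≤ c * ((n + ⌈y⌉₊ : ℕ) : ℝ) ^ d := by
    exact_mod_cast h6
  refine h7.trans ?_
  have h8 : (c : ℝ) * ((n + ⌈y⌉₊ : ℕ) : ℝ) ^ d ≤ c * (3 * y) ^ d :=
    mul_le_mul_of_nonneg_left (pow_le_pow_left₀ (Nat.cast_nonneg _) h5 d) (Nat.cast_nonneg _)
  refine h8.trans ?_
  have h9 : y ^ d ≤ 2 ^ ((n : ℝ) / 2) := by
    rw [hy, ← Real.rpow_natCast, ← Real.rpow_mul (by norm_num)]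
    apply Real.rpow_le_rpow_of_exponent_le (by norm_num)
    have h10 : ε * d ≤ 1 / 2 := by
      rw [hε]
      have hd : (0 : ℝ) ≤ d := Nat.cast_nonneg d
      rw [div_mul_eq_mul_div, div_le_div_iff₀ (by positivity) (by norm_num)]
      linarith
    have hn0 : (0 : ℝ) ≤ n := Nat.cast_nonneg n
    nlinarith
  have h10 : (2 : ℝ) ^ n = 2 ^ ((n : ℝ) / 2) * 2 ^ ((n : ℝ) / 2) := by
    rw [← Real.rpow_add (by norm_num), add_halves, Real.rpow_natCast]
  rw [mul_pow, h10]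
  have h11 : 0 ≤ (2 : ℝ) ^ ((n : ℝ) / 2) := by positivity
  have h12 : (c : ℝ) * (3 ^ d * y ^ d) ≤ c * (3 ^ d * 2 ^ ((n : ℝ) / 2)) :=
    mul_le_mul_of_nonneg_left (mul_le_mul_of_nonneg_left h9 (by positivity)) (Nat.cast_nonneg _)
  refine h12.trans ?_
  nlinarith

/-- one half -/
noncomputable def hf : unitInterval := ⟨1 / 2, by norm_num, by norm_num⟩

theorem dev_hf (n : ℕ) : dev (fun _ => hf) n = 2 ^ n / 2 := by
  unfold dev hf
  norm_num
  ring

theorem main2 (h : ∀ ε : ℝ, 0 < ε → ∃ᶠ n : ℕ in Filter.atTop, ∀ (w : List Bool)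
      (F : Finset (List Bool)) (B : Oracle) (b : Bool), w.length = n → w ∉ F →
      (2 : ℝ) ^ (-(ε * n)) * μ.real {A | ∀ v ∈ F, A v = B v} ≤
        μ.real {A | (∀ v ∈ F, A v = B v) ∧ A w = b}) :
    ∀ᵐ A ∂μ, ∃ L, IsPSPACE A L ∧ ¬ IsPHpoly A L := by
  refine Large.main fun P n₀ => ?_
  obtain ⟨ε, hε, n₁, hn₁⟩ := exists_eps P
  obtain ⟨n, hn, h2⟩ := (Filter.frequently_atTop.1 (h ε hε)) (max n₁ (n₀ + 1))
  refine ⟨n, ⌈(2 : ℝ) ^ (ε * n)⌉₊, fun _ => hf, by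
    have := le_trans (le_max_right _ _) hn; omega, fun w hw F B b hF => ?_, ?_⟩
  · have h3 := h2 w F B (!b) hw hF
    have h4 : μ.real {A : Oracle | (∀ v ∈ F, A v = B v) ∧ A w = b} ≤
        μ.real {A : Oracle | ∀ v ∈ F, A v = B v} :=
      measureReal_mono (fun A hA => hA.1)
    have h5 : (2 : ℝ) ^ (-(ε * n)) = ((2 : ℝ) ^ (ε * n))⁻¹ := Real.rpow_neg (by norm_num) _
    have h6 : 0 < (2 : ℝ) ^ (ε * n) := by positivity
    have h7 := Nat.le_ceil ((2 : ℝ) ^ (ε * n))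
    have h8 : ∀ c : Bool, bp hf c = 1 / 2 := by
      intro c
      unfold bp hf
      cases c <;> norm_num
    rw [h8, h8]
    have h9 : μ.real {A : Oracle | (∀ v ∈ F, A v = B v) ∧ A w = b} ≤
        (2 : ℝ) ^ (ε * n) * μ.real {A : Oracle | (∀ v ∈ F, A v = B v) ∧ A w = !b} := by
      rw [h5] at h3
      have h10 := mul_le_mul_of_nonneg_left h3 h6.le
      rw [← mul_assoc, mul_inv_cancel₀ h6.ne', one_mul] at h10
      exact h4.trans h10
    have h11 := mul_le_mul_of_nonneg_right h7 (measureReal_nonneg (μ := μ)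
      (s := {A : Oracle | (∀ v ∈ F, A v = B v) ∧ A w = !b}))
    linarith
  · rw [dev_hf]
    exact hn₁ n (le_trans (le_max_left _ _) hn)

end

end Pool.Agent.Y616.QI
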