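import Pool.Agent.Y616.QI.Bd
import Pool.Agent.W911.IB.Main

/-!
# Oracles with quasi-independent bits: the measure part
-/

set_option autoImplicit false
set_option linter.unusedSectionVars false

namespace Pool.Agent.Y616.QI

open Finset MeasureTheory Pool.Agent.NPC H568R2 Pool.Agent.H676 Pool.Agent.H620R2.Gauge
  Pool.Agent.W911.IB

/-- The probability of the bit `b` if `true` has the probability `t`. -/
noncomputable def bp (t : unitInterval) (b : Bool) : ℝ := if b then (t : ℝ) else 1 - (t : ℝ)

/-- Whatever finitely many other bits are, the odds of the bit at `w` are the ones of a coin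
which shows `true` with probability `t`, up to a factor `K`. -/
def Odds (μ : Measure Oracle) (w : List Bool) (t : unitInterval) (K : ℕ) : Prop :=
  ∀ (F : Finset (List Bool)) (B : Oracle) (b : Bool), w ∉ F →
    μ.real {A | (∀ v ∈ F, A v = B v) ∧ A w = b} * bp t (!b) ≤
      K * (μ.real {A | (∀ v ∈ F, A v = B v) ∧ A w = !b} * bp t b)

section

variable (μ : Measure Oracle) [IsProbabilityMeasure μ]

/-- the weights of the first bits -/
noncomputable def wt (N : ℕ) (a : Fin N → Bool) : ℝ := μ.real {A | pre N A = a}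

open Classical in
theorem mu_local (N : ℕ) (S : (Fin N → Bool) → Prop) :
    μ.real {A | S (pre N A)} = ∑ a, wt μ N a * (if S a then (1 : ℝ) else 0) := by
  have h1 : {A : Oracle | S (pre N A)} = ⋃ a ∈ univ.filter S, {A : Oracle | pre N A = a} := by
    ext A
    simp
  rw [h1, measureReal_biUnion_finset]
  · rw [Finset.sum_filter]
    refine Finset.sum_congr rfl fun a _ => ?_
    unfold wt
    split_ifs <;> simp
  · intro a _ b _ hab
    rw [Function.onFun, Set.disjoint_left]
    intro A hA hB
    exact hab (hA.symm.trans hB)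
  · intro a _
    exact measurable_pre N (MeasurableSet.singleton a)

open Classical in
theorem mu_of_local {N n : ℕ} (hN : 2 ^ (n + 1) ≤ N) {G : Set Oracle} (hG : LocalAt n G) :
    μ.real G = ∑ a, wt μ N a * (if orc N a ∈ G then (1 : ℝ) else 0) := by
  rw [← mu_local μ N (fun a => orc N a ∈ G)]
  congr 1
  ext A
  exact (hG _ _ (fun w hw => orc_pre_eq hN A w hw)).symm

variable {μ}

theorem wt_comp {N : ℕ} (i : Fin N) {t : unitInterval} {K : ℕ} (hμ : Odds μ (str i) t K)
    (a : Fin N → Bool) (b : Bool) :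
    wt μ N (Function.update a i b) * bp t (!b) ≤
      K * (wt μ N (Function.update a i (!b)) * bp t b) := by
  classical
  have h := hμ ((univ.erase i).image (fun j : Fin N => str j)) (orc N a) b (by
    rw [Finset.mem_image]
    rintro ⟨j, hj, h⟩
    exact (Finset.ne_of_mem_erase hj) (Fin.ext (str_injective h)))
  have hset : ∀ c : Bool, {A : Oracle | (∀ v ∈ (univ.erase i).image (fun j : Fin N => str j),
      A v = orc N a v) ∧ A (str i) = c} = {A | pre N A = Function.update a i c} := by
    intro c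
    ext A
    simp only [Set.mem_ofPred_eq]
    constructor
    · rintro ⟨h1, h2⟩
      funext j
      by_cases hj : j = i
      · subst hj
        rw [Function.update_self]
        exact h2
      · rw [Function.update_of_ne hj]
        have h3 := h1 (str j) (Finset.mem_image.2 ⟨j, Finset.mem_erase.2 ⟨hj, Finset.mem_univ _⟩,
          rfl⟩)
        show A (str j) = a j
        rw [h3]
        have h4 := congrFun (pre_orc N a) j
        exact h4
    · intro h1
      refine ⟨fun v hv => ?_, ?_⟩
      · obtain ⟨j, hj, rfl⟩ := Finset.mem_image.1 hv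
        have h2 : A (str j) = Function.update a i c j := congrFun h1 j
        rw [h2, Function.update_of_ne (Finset.ne_of_mem_erase hj)]
        exact (congrFun (pre_orc N a) j).symm
      · have h2 : A (str i) = Function.update a i c i := congrFun h1 i
        rw [h2, Function.update_self]
  rw [hset, hset] at h
  exact h

/-- the smaller probability -/
noncomputable def ee (t : unitInterval) : ℝ := min (t : ℝ) (1 - (t : ℝ))

/-- the more probable bit -/
noncomputable def md (t : unitInterval) : Bool := decide (1 / 2 < (t : ℝ))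

theorem bp_md (t : unitInterval) : bp t (md t) = 1 - ee t ∧ bp t (!md t) = ee t := by
  unfold bp md ee
  by_cases h : 1 / 2 < (t : ℝ)
  · simp only [h, decide_true, if_true, Bool.not_true, Bool.false_eq_true, if_false]
    rw [min_eq_right (by linarith)]
    exact ⟨by ring, rfl⟩
  · simp only [h, decide_false, Bool.not_false, if_true, Bool.false_eq_true, if_false]
    rw [min_eq_left (by linarith)]
    exact ⟨rfl, rfl⟩

theorem ee_nonneg (t : unitInterval) : 0 ≤ ee t := le_min t.2.1 (by linarith [t.2.2])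

theorem ee_le (t : unitInterval) : ee t ≤ 1 / 2 := by
  unfold ee
  rcases le_total (t : ℝ) (1 - (t : ℝ)) with h | h
  · rw [min_eq_left h]; linarith
  · rw [min_eq_right h]; linarith

/-- the probability that a position becomes free -/
noncomputable def rr (t : unitInterval) (b : Bool) : ℝ := if b = md t then ee t / (1 - ee t) else 1

theorem rr_bounds (t : unitInterval) (b : Bool) : 0 ≤ rr t b ∧ rr t b ≤ 1 ∧ ee t ≤ rr t b := by
  have h0 := ee_nonneg t
  have h1 := ee_le t
  unfold rr
  split_ifs
  · refine ⟨div_nonneg h0 (by linarith), ?_, ?_⟩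
    · rw [div_le_one (by linarith)]; linarith
    · rw [le_div_iff₀ (by linarith)]; nlinarith
  · exact ⟨by norm_num, le_refl _, by linarith⟩

theorem rr_comp {t : unitInterval} {x y K : ℝ} (b : Bool) (h : x * bp t (!b) ≤ K * (y * bp t b)) :
    x * rr t b ≤ K * (y * rr t (!b)) := by
  have h1 := ee_le t
  obtain ⟨h2, h3⟩ := bp_md t
  have hpos : 0 < 1 - ee t := by linarith
  by_cases hb : b = md t
  · have hb' : ¬ (!b) = md t := by rw [hb]; cases md t <;> simp
    have e1 : rr t b = ee t / (1 - ee t) := by unfold rr; rw [if_pos hb]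
    have e2 : rr t (!b) = 1 := by unfold rr; rw [if_neg hb']
    rw [hb, h2, h3] at h
    rw [e1, e2, mul_one, mul_div_assoc', div_le_iff₀ hpos]
    linarith
  · have hb' : b = !md t := by
      revert hb
      cases b <;> cases md t <;> simp
    have hb'' : (!b) = md t := by rw [hb', Bool.not_not]
    have e1 : rr t b = 1 := by unfold rr; rw [if_neg hb]
    have e2 : rr t (!b) = ee t / (1 - ee t) := by unfold rr; rw [if_pos hb'']
    rw [hb'', hb', h2, h3] at h
    rw [e1, e2, mul_one, mul_div_assoc', mul_div_assoc', le_div_iff₀ hpos]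
    exact h

open Classical in
theorem chain_step' {q : List Bool → unitInterval} (M : Alg) (p : Polynomial ℕ) (k : ℕ)
    {G : Set Oracle} {n₀ n K : ℕ} (hμ : ∀ w : List Bool, w.length = n → Odds μ w (q w) K)
    (hG : LocalAt n₀ G) (hn : n₀ < n)
    (hm : (need ((Tp M p k).eval n) (K + 1) k : ℝ) ≤ dev q n) :
    μ.real (G ∩ CCn M p k n) ≤ 3 / 4 * μ.real G := by
  obtain ⟨Q, hQ⟩ := ccn_local M p k
  obtain ⟨hQn, hQl⟩ := hQ n
  set N := 2 ^ (Q.eval n + 1) with hN
  have hN1 : 2 ^ (n + 1) ≤ N := Nat.pow_le_pow_right (by norm_num) (by omega)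
  have hN0 : 2 ^ (n₀ + 1) ≤ N := Nat.pow_le_pow_right (by norm_num) (by omega)
  have hGC : LocalAt (Q.eval n) (G ∩ CCn M p k n) := by
    intro A A' hA
    rw [Set.mem_inter_iff, Set.mem_inter_iff, hQl A A' hA,
      hG A A' (fun w hw => hA w (by omega))]
  rw [mu_of_local μ (N := N) le_rfl hGC, mu_of_local μ hN0 hG]
  have hlen : ∀ i ∈ lvl N n, (str i).length = n := fun i hi => (Finset.mem_filter.1 hi).2
  have hGu : ∀ i ∈ lvl N n, ∀ (a : Fin N → Bool) (b : Bool),
      orc N (Function.update a i b) ∈ G ↔ orc N a ∈ G := by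
    intro i hi a b
    apply hG
    intro v hv
    rw [orc_upd, if_neg]
    intro h
    have h2 := hlen i hi
    rw [← h] at h2
    omega
  have h := ccn_bound M p k hN1 (by omega) (K := K + 1) (by omega)
    (w := fun a => wt μ N a * (if orc N a ∈ G then (1 : ℝ) else 0)) (fun a => by
      refine mul_nonneg measureReal_nonneg ?_
      split_ifs <;> norm_num)
    (r := fun i => rr (q (str i))) (e := fun i => ee (q (str i)))
    (fun i _ b => ⟨(rr_bounds _ b).1, (rr_bounds _ b).2.1⟩)
    (fun i _ b => ⟨ee_nonneg _, (rr_bounds _ b).2.2⟩)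
    (fun i hi a b => by
      show wt μ N (Function.update a i b) * (if orc N (Function.update a i b) ∈ G then (1 : ℝ)
          else 0) * rr (q (str i)) b ≤ ((K + 1 : ℕ) : ℝ) * (wt μ N (Function.update a i (!b)) *
          (if orc N (Function.update a i (!b)) ∈ G then (1 : ℝ) else 0) * rr (q (str i)) (!b))
      simp only [hGu i hi]
      by_cases hGa : orc N a ∈ G
      · simp only [hGa, if_true, mul_one]
        have h2 := wt_comp i (hμ _ (hlen i hi)) a b
        have h3 := rr_comp b h2
        refine h3.trans ?_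
        refine mul_le_mul_of_nonneg_right ?_ (mul_nonneg measureReal_nonneg (rr_bounds _ _).1)
        push_cast
        linarith
      · simp [hGa]) (by
      refine hm.trans (le_of_eq ?_)
      rw [← dev_lvl q hN1]
      refine Finset.sum_congr rfl fun i _ => ?_
      show min (bt q N i true) (bt q N i false) = ee (q (str i))
      unfold bt ee
      simp)
  refine le_trans (le_of_eq ?_) h
  refine Finset.sum_congr rfl fun a _ => ?_
  by_cases h1 : orc N a ∈ G <;> by_cases h2 : orc N a ∈ CCn M p k n <;>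
    simp [h1, h2, Set.mem_inter_iff]

theorem need_mono {t t' K K' : ℕ} (k : ℕ) (ht : t ≤ t') (hK : K ≤ K') :
    need t K k ≤ need t' K' k := by
  unfold need
  gcongr

/-- the polynomial -/
noncomputable def Np (M : Alg) (p : Polynomial ℕ) (k : ℕ) : Polynomial ℕ :=
  (2 * (Polynomial.X + 1) + 2) * (2 * (32 * Tp M p k * (Polynomial.X + 1) ^ 2) ^ k *
    ((2 * (Polynomial.X + 1) + 2) * Tp M p k + (2 * (Polynomial.X + 1) + 2) + 5) + 1) + 1

theorem eval_Np (M : Alg) (p : Polynomial ℕ) (k x : ℕ) :
    (Np M p k).eval x = need ((Tp M p k).eval x) (x + 1) k := by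
  simp [Np, need]

/-- For every polynomial there are arbitrarily large lengths at which the odds are known up to a
factor `K` and the expected number of deviations is larger than the value of the polynomial at
`n + K`. -/
def Large (μ : Measure Oracle) : Prop :=
  ∀ (P : Polynomial ℕ) (n₀ : ℕ), ∃ (n K : ℕ) (q : List Bool → unitInterval), n₀ < n ∧
    (∀ w : List Bool, w.length = n → Odds μ w (q w) K) ∧ ((P.eval (n + K) : ℕ) : ℝ) ≤ dev q n

theorem ccn_null (hq : Large μ) (M : Alg) (p : Polynomial ℕ) (k : ℕ) :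
    μ {A | ∀ n, A ∈ CCn M p k n} = 0 := by
  have h : ∀ j : ℕ, ∃ (G : Set Oracle) (n₀ : ℕ), LocalAt n₀ G ∧
      {A | ∀ n, A ∈ CCn M p k n} ⊆ G ∧ μ.real G ≤ (3 / 4) ^ j := by
    intro j
    induction j with
    | zero =>
      refine ⟨Set.univ, 0, fun A A' _ => Iff.rfl, Set.subset_univ _, ?_⟩
      rw [pow_zero]
      exact measureReal_le_one
    | succ j ih =>
      obtain ⟨G, n₀, h1, h2, h3⟩ := ih
      obtain ⟨n, K, q, hn, hμ, hm⟩ := hq (Np M p k) n₀
      obtain ⟨Q, hQ⟩ := ccn_local M p k
      obtain ⟨hQn, hQl⟩ := hQ n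
      refine ⟨G ∩ CCn M p k n, Q.eval n, ?_, ?_, ?_⟩
      · intro A A' hA
        rw [Set.mem_inter_iff, Set.mem_inter_iff, hQl A A' hA,
          h1 A A' (fun w hw => hA w (by omega))]
      · intro A hA
        exact ⟨h2 hA, hA n⟩
      · have hm' : (need ((Tp M p k).eval n) (K + 1) k : ℝ) ≤ dev q n := by
          refine le_trans ?_ hm
          rw [eval_Np]
          exact_mod_cast need_mono k (eval_mono _ (Nat.le_add_right n K)) (by omega)
        refine (chain_step' M p k hμ h1 hn hm').trans ?_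
        rw [pow_succ]
        linarith
  have h0 : Filter.Tendsto (fun j : ℕ => (3 / 4 : ℝ) ^ j) Filter.atTop (nhds 0) :=
    tendsto_pow_atTop_nhds_zero_of_lt_one (by norm_num) (by norm_num)
  have h4 : μ.real {A | ∀ n, A ∈ CCn M p k n} ≤ 0 := by
    refine ge_of_tendsto' h0 fun j => ?_
    obtain ⟨G, n₀, _, h2, h3⟩ := h j
    exact (measureReal_mono h2).trans h3
  have h5 : μ.real {A | ∀ n, A ∈ CCn M p k n} = 0 := le_antisymm h4 measureReal_nonneg
  rw [measureReal_eq_zero_iff] at h5
  exact h5

/-- Relative to almost every oracle, the language is not in the hierarchy. -/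
theorem LA_not_ph (hq : Large μ) : ∀ᵐ A ∂μ, ¬ IsPH A (LA A) := by
  have h1 : ∀ᵐ A ∂μ, ∀ θ : Par, ¬ ∀ n, A ∈ CCn θ.M θ.p θ.k n := by
    rw [ae_all_iff]
    intro θ
    have := ccn_null hq θ.M θ.p θ.k
    rw [ae_iff]
    simpa using this
  filter_upwards [h1] with A hA
  rintro ⟨V, p, k, ⟨M, hM⟩, hL⟩
  apply hA ⟨M, p, k, 0⟩
  intro n v hv
  have h2 : (fun y => (M.out A y).getD []) = V := by
    funext y
    rw [hM y]
    rfl
  show Quant (p.eval n) (fun y => (M.out A y).getD []) k true (bitsOf n v) ↔ bitsOf n v ∈ LA A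
  rw [h2]
  have h3 := hL (bitsOf n v)
  rw [length_bitsOf] at h3
  exact h3.symm

theorem Large.main (hq : Large μ) : ∀ᵐ A ∂μ, ∃ L, IsPSPACE A L ∧ ¬ IsPHpoly A L := by
  filter_upwards [LA_not_ph hq] with A hA
  exact exists_poly_of_not_same fun hs => hA ((hs _).2 (LA_pspace A))

/-! ### Few deviations -/

theorem markov' (B : Oracle) (n K : ℕ) (hK : K ≠ 0) :
    μ {A | K ≤ nd A B n} ≤ (∑ v : Fin n → Bool, μ {A | A (List.ofFn v) ≠ B (List.ofFn v)}) / K := by
  have h0 : ∫⁻ A, (nd A B n : ENNReal) ∂μ =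
      ∑ v : Fin n → Bool, μ {A | A (List.ofFn v) ≠ B (List.ofFn v)} := by
    have h1 := fun A => nd_ind A B n
    simp only [h1]
    rw [lintegral_finsetSum _ (fun v _ =>
      (measurable_one.indicator (measurableSet_ne _ _)))]
    refine Finset.sum_congr rfl fun v _ => ?_
    rw [lintegral_indicator_one (measurableSet_ne _ _)]
  have h1 := meas_ge_le_lintegral_div (μ := μ)
    (f := fun A => (nd A B n : ENNReal)) (ε := (K : ENNReal)) ?_
    (by exact_mod_cast hK) (ENNReal.natCast_ne_top K)
  · rw [h0] at h1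
    have h2 : {A : Oracle | (K : ENNReal) ≤ (nd A B n : ENNReal)} = {A | K ≤ nd A B n} := by
      ext A
      simp
    rw [h2] at h1
    exact h1
  · have h3 := fun A => nd_ind A B n
    simp only [h3]
    exact (Finset.measurable_sum _ fun v _ =>
      (measurable_one.indicator (measurableSet_ne _ _))).aemeasurable

/-- If the expected number of deviations is polynomially bounded, the set of the deviations is
sparse almost surely. -/
theorem few_ae' (B : Oracle) (P : Polynomial ℕ)
    (hP : ∀ n, ∑ v : Fin n → Bool, μ.real {A | A (List.ofFn v) ≠ B (List.ofFn v)} ≤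
      ((P.eval n : ℕ) : ℝ)) : ∀ᵐ A ∂μ, Few A B := by
  have h1 : ∀ n : ℕ, μ {A | (n + 1) ^ 2 * (P.eval n + 1) ≤ nd A B n} ≤
      ENNReal.ofReal (1 / ((n : ℝ) + 1) ^ 2) := by
    intro n
    refine (markov' B n _ (by positivity)).trans ?_
    have h2 := hP n
    have h3 : ∑ v : Fin n → Bool, μ {A | A (List.ofFn v) ≠ B (List.ofFn v)} =
        ENNReal.ofReal (∑ v : Fin n → Bool, μ.real {A | A (List.ofFn v) ≠ B (List.ofFn v)}) := by
      rw [ENNReal.ofReal_sum_of_nonneg (fun _ _ => measureReal_nonneg)]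
      refine Finset.sum_congr rfl fun v _ => ?_
      rw [ofReal_measureReal]
    rw [h3]
    have h4 : (((n + 1) ^ 2 * (P.eval n + 1) : ℕ) : ENNReal) =
        ENNReal.ofReal (((n + 1) ^ 2 * (P.eval n + 1) : ℕ) : ℝ) := by
      rw [ENNReal.ofReal_natCast]
    rw [h4, ← ENNReal.ofReal_div_of_pos (by positivity)]
    apply ENNReal.ofReal_le_ofReal
    rw [div_le_div_iff₀ (by positivity) (by positivity)]
    push_cast
    have h5 : (0 : ℝ) ≤ ((n : ℝ) + 1) ^ 2 := by positivity
    nlinarith
  have h2 : Summable (fun n : ℕ => 1 / ((n : ℝ) + 1) ^ 2) := by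
    have h3 : Summable (fun n : ℕ => 1 / (n : ℝ) ^ 2) :=
      Real.summable_one_div_nat_pow.2 (by norm_num)
    have h4 := (summable_nat_add_iff 1).2 h3
    refine h4.congr fun n => ?_
    push_cast
    rfl
  have h3 : ∑' n : ℕ, μ {A | (n + 1) ^ 2 * (P.eval n + 1) ≤ nd A B n} ≠ ⊤ :=
    ne_top_of_le_ne_top h2.tsum_ofReal_ne_top (ENNReal.tsum_le_tsum h1)
  filter_upwards [ae_eventually_notMem h3] with A hA
  obtain ⟨n₀, hn₀⟩ := Filter.eventually_atTop.1 hA
  have h4 : ∀ n, nd A B n ≤ (n + 1) ^ 2 * (P.eval n + 1) + 2 ^ n₀ := by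
    intro n
    by_cases h : n₀ ≤ n
    · have h5 := hn₀ n h
      simp only [Set.mem_ofPred_eq, not_le] at h5
      have h6 : 0 < 2 ^ n₀ := by positivity
      omega
    · have h5 := nd_le A B n
      have h6 : 2 ^ n ≤ 2 ^ n₀ := Nat.pow_le_pow_right (by norm_num) (by omega)
      have h7 : 0 ≤ (n + 1) ^ 2 * (P.eval n + 1) := Nat.zero_le _
      omega
  refine ⟨(Polynomial.X + 1) * ((Polynomial.X + 1) ^ 2 * (P + 1) + Polynomial.C (2 ^ n₀)),
    fun n => ?_⟩
  have h5 : ((Polynomial.X + 1) * ((Polynomial.X + 1) ^ 2 * (P + 1) +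
      Polynomial.C (2 ^ n₀)) : Polynomial ℕ).eval n =
      (n + 1) * ((n + 1) ^ 2 * (P.eval n + 1) + 2 ^ n₀) := by
    simp
  rw [h5]
  refine (dif_card A B n).trans ?_
  have h6 : ∀ j ∈ Finset.range (n + 1), nd A B j ≤
      (n + 1) ^ 2 * (P.eval n + 1) + 2 ^ n₀ := by
    intro j hj
    rw [Finset.mem_range] at hj
    refine (h4 j).trans ?_
    have h7 : (j + 1) ^ 2 ≤ (n + 1) ^ 2 := Nat.pow_le_pow_left (by omega) 2
    have h8 : P.eval j ≤ P.eval n := eval_mono P (by omega)
    have h9 := Nat.mul_le_mul h7 (Nat.succ_le_succ h8)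
    simp only [Nat.succ_eq_add_one] at h9
    omega
  refine (Finset.sum_le_sum h6).trans (le_of_eq ?_)
  rw [Finset.sum_const, Finset.card_range, smul_eq_mul]

theorem dev_prob {w : List Bool} {q : List Bool → unitInterval} {K : ℕ}
    (h : Odds μ w (q w) K) : μ.real {A | A w ≠ modeO q w} ≤ 2 * K * ee (q w) := by
  have h1 := h ∅ (fun _ => false) (!md (q w)) (by simp)
  have h2 := bp_md (q w)
  rw [Bool.not_not, h2.1, h2.2] at h1
  have e1 : {A : Oracle | (∀ v ∈ (∅ : Finset (List Bool)), A v = false) ∧ A w = !md (q w)} =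
      {A | A w ≠ modeO q w} := by
    ext A
    have : modeO q w = md (q w) := rfl
    rw [Set.mem_ofPred_eq, Set.mem_ofPred_eq, this]
    cases A w <;> cases md (q w) <;> simp
  rw [e1] at h1
  have h3 := ee_le (q w)
  have h4 := ee_nonneg (q w)
  have h5 : μ.real {A : Oracle | (∀ v ∈ (∅ : Finset (List Bool)), A v = false) ∧
      A w = md (q w)} ≤ 1 := measureReal_le_one
  have h6 : (0 : ℝ) ≤ μ.real {A | A w ≠ modeO q w} := measureReal_nonneg
  have h7 : (K : ℝ) * (μ.real {A : Oracle | (∀ v ∈ (∅ : Finset (List Bool)), A v = false) ∧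
      A w = md (q w)} * ee (q w)) ≤ K * ee (q w) := by
    refine mul_le_mul_of_nonneg_left ?_ (Nat.cast_nonneg K)
    nlinarith
  nlinarith

end

end Pool.Agent.Y616.QI
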