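import Pool.Agent.H676.DT

/-!
# The switching lemma for weights that are not products
-/

set_option autoImplicit false
set_option linter.unusedSectionVars false

namespace Pool.Agent.Y616.QI

open Finset H568R2 Pool.Agent.H676

section

variable {I : Type*} [Fintype I] [DecidableEq I]

/-- Weights of restrictions whose stars are in `D`: fixing a star costs at most a factor `γ`,
changing a fixed bit in `D` costs at most a factor `K`. -/
structure WS (D : Finset I) (γ K : ℝ) (W : Restr I → ℝ) : Prop where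
  g0 : 0 ≤ γ
  k0 : 0 ≤ K
  nonneg : ∀ ρ, 0 ≤ W ρ
  supp : ∀ ρ i, ρ i = none → i ∉ D → W ρ = 0
  star : ∀ ρ i b, i ∈ D → ρ i = none → W ρ ≤ γ * W (Function.update ρ i (some b))
  flip : ∀ ρ i b, i ∈ D → ρ i ≠ none → W ρ ≤ K * W (Function.update ρ i (some b))

theorem setOn_insert (ρ : Restr I) (A : Finset I) (π : I → Bool) (i : I) :
    setOn ρ (insert i A) π = Function.update (setOn ρ A π) i (some (π i)) := by
  funext j
  unfold setOn
  by_cases hj : j = i
  · subst hj; simp
  · simp [hj, Finset.mem_insert, Function.update_of_ne hj]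

theorem setOn_empty (ρ : Restr I) (π : I → Bool) : setOn ρ ∅ π = ρ := by
  funext j
  simp [setOn]

theorem WS.star_set {D : Finset I} {γ K : ℝ} {W : Restr I → ℝ} (h : WS D γ K W) (ρ : Restr I)
    (π : I → Bool) (A : Finset I) (hA : ∀ i ∈ A, ρ i = none) :
    W ρ ≤ γ ^ A.card * W (setOn ρ A π) := by
  by_cases hD : ∀ i ∈ A, i ∈ D
  · induction A using Finset.induction_on with
    | empty => rw [setOn_empty, Finset.card_empty, pow_zero, one_mul]
    | insert i A hi ih =>
      have h1 := ih (fun j hj => hA j (Finset.mem_insert_of_mem hj))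
        (fun j hj => hD j (Finset.mem_insert_of_mem hj))
      have h2 : setOn ρ A π i = none := by
        unfold setOn
        rw [if_neg hi]
        exact hA i (Finset.mem_insert_self i A)
      have h3 := h.star (setOn ρ A π) i (π i) (hD i (Finset.mem_insert_self i A)) h2
      rw [Finset.card_insert_of_notMem hi, setOn_insert, pow_succ, mul_assoc]
      exact h1.trans (mul_le_mul_of_nonneg_left h3 (pow_nonneg h.g0 _))
  · push Not at hD
    obtain ⟨i, hi, hiD⟩ := hD
    rw [h.supp ρ i (hA i hi) hiD]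
    exact mul_nonneg (pow_nonneg h.g0 _) (h.nonneg _)

theorem WS.flip_set {D : Finset I} {γ K : ℝ} {W : Restr I → ℝ} (h : WS D γ K W) (ρ : Restr I)
    (π : I → Bool) (A : Finset I) (hA : ∀ i ∈ A, ρ i ≠ none) (hD : ∀ i ∈ A, i ∈ D) :
    W ρ ≤ K ^ A.card * W (setOn ρ A π) := by
  induction A using Finset.induction_on with
  | empty => rw [setOn_empty, Finset.card_empty, pow_zero, one_mul]
  | insert i A hi ih =>
    have h1 := ih (fun j hj => hA j (Finset.mem_insert_of_mem hj))
      (fun j hj => hD j (Finset.mem_insert_of_mem hj))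
    have h2 : setOn ρ A π i ≠ none := by
      unfold setOn
      rw [if_neg hi]
      exact hA i (Finset.mem_insert_self i A)
    have h3 := h.flip (setOn ρ A π) i (π i) (hD i (Finset.mem_insert_self i A)) h2
    rw [Finset.card_insert_of_notMem hi, setOn_insert, pow_succ, mul_assoc]
    exact h1.trans (mul_le_mul_of_nonneg_left h3 (pow_nonneg h.k0 _))

theorem WS.enc {D : Finset I} {γ K : ℝ} {W : Restr I → ℝ} (h : WS D γ K W)
    {L : List (Term I)} {k : ℕ} {ρ ρ' : Restr I} (hE : Enc3 L k ρ ρ') :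
    W ρ ≤ (γ * K) ^ k * W ρ' := by
  induction hE with
  | nil ρ => simp
  | @step k ρ ρ'' T hT A hA hne hAk π hE ih =>
    have hs : ∀ i ∈ A, ρ i = none := fun i hi => stars_none hA hi
    by_cases hD : ∀ i ∈ A, i ∈ D
    · have a1 := h.star_set ρ π A hs
      have a2 : W ρ'' ≤ K ^ A.card * W (setOn ρ'' A T.2) := by
        refine h.flip_set ρ'' T.2 A (fun i hi => ?_) hD
        have h4 : ρ'' i = some (π i) := hE.ext i (π i) (by unfold setOn; rw [if_pos hi])
        rw [h4]
        simp
      have hgk : 0 ≤ (γ * K) ^ k := pow_nonneg (mul_nonneg h.g0 h.k0) _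
      calc W ρ ≤ γ ^ A.card * W (setOn ρ A π) := a1
        _ ≤ γ ^ A.card * ((γ * K) ^ k * W ρ'') :=
          mul_le_mul_of_nonneg_left ih (pow_nonneg h.g0 _)
        _ ≤ γ ^ A.card * ((γ * K) ^ k * (K ^ A.card * W (setOn ρ'' A T.2))) :=
          mul_le_mul_of_nonneg_left (mul_le_mul_of_nonneg_left a2 hgk) (pow_nonneg h.g0 _)
        _ = (γ * K) ^ (A.card + k) * W (setOn ρ'' A T.2) := by
          rw [pow_add, mul_pow γ K A.card]; ring
    · push Not at hD
      obtain ⟨i, hi, hiD⟩ := hD
      rw [h.supp ρ i (hs i hi) hiD]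
      exact mul_nonneg (pow_nonneg (mul_nonneg h.g0 h.k0) _) (h.nonneg _)

open Classical in
/-- The switching lemma with general weights. -/
theorem WS.switch {D : Finset I} {γ K : ℝ} {W : Restr I → ℝ} (h : WS D γ K W) {t k : ℕ}
    (ht : 1 ≤ t) {b : Bool} {f : (I → Bool) → Bool} (hf : Cert t b f) :
    ∑ ρ : Restr I, W ρ * (if ¬ DTr k (rs f ρ) then (1 : ℝ) else 0) ≤
      (4 * t * (γ * K)) ^ (k + 1) * ∑ ρ : Restr I, W ρ := by
  wlog hb : b = true generalizing b f
  · have hb' : b = false := by simpa using hb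
    subst hb'
    have hf' : Cert t true (fun x => !f x) := by
      intro x hx
      obtain ⟨A, hA, hy⟩ := hf x (by simpa using hx)
      exact ⟨A, hA, fun y h => by simp [hy y h]⟩
    have := this hf' rfl
    refine le_trans (Finset.sum_le_sum fun ρ _ => ?_) this
    refine mul_le_mul_of_nonneg_left ?_ (h.nonneg ρ)
    by_cases hJ : DTr k (rs f ρ)
    · simp only [hJ, not_true, if_false]
      split_ifs <;> norm_num
    · have hJ' : ¬ DTr k (rs (fun x => !f x) ρ) := by
        intro h
        apply hJ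
        have h2 := h.comp (fun b => !b)
        refine (congrArg (DTr k) (funext fun x => ?_)).mp h2
        simp [rs]
      simp only [hJ, hJ', not_false_iff, if_true, le_refl]
  subst hb
  obtain ⟨L, hL, rfl⟩ := cert_dnf hf
  have hgk : 0 ≤ (γ * K) ^ (k + 1) := pow_nonneg (mul_nonneg h.g0 h.k0) _
  have hstep : ∀ ρ : Restr I, W ρ * (if ¬ DTr k (rs (dnf L) ρ) then (1 : ℝ) else 0) ≤
      ∑ ρ' : Restr I, if Enc3 L (k + 1) ρ ρ' then (γ * K) ^ (k + 1) * W ρ' else 0 := by
    intro ρ
    have hnn : ∀ ρ' : Restr I, 0 ≤ (if Enc3 L (k + 1) ρ ρ' then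
        (γ * K) ^ (k + 1) * W ρ' else 0) := by
      intro ρ'
      split_ifs
      · exact mul_nonneg hgk (h.nonneg _)
      · exact le_refl _
    by_cases hJ : DTr k (rs (dnf L) ρ)
    · simp only [hJ, not_true, if_false, mul_zero]
      exact Finset.sum_nonneg fun ρ' _ => hnn ρ'
    · obtain ⟨ρ', hE⟩ := Enc3.exists k ρ hJ
      simp only [hJ, not_false_iff, if_true, mul_one]
      refine (h.enc hE).trans ?_
      have := Finset.single_le_sum (fun ρ' _ => hnn ρ') (Finset.mem_univ ρ')
      rw [if_pos hE] at this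
      exact this
  refine (Finset.sum_le_sum fun ρ _ => hstep ρ).trans ?_
  rw [Finset.sum_comm]
  have hin : ∀ ρ' : Restr I, ∑ ρ : Restr I,
      (if Enc3 L (k + 1) ρ ρ' then (γ * K) ^ (k + 1) * W ρ' else 0) ≤
      (4 * t * (γ * K)) ^ (k + 1) * W ρ' := by
    intro ρ'
    rw [← Finset.sum_filter, Finset.sum_const, nsmul_eq_mul]
    have hc := Enc3.count ht hL (k + 1) ρ'
    have hp : 0 ≤ (γ * K) ^ (k + 1) * W ρ' := mul_nonneg hgk (h.nonneg _)
    calc _ ≤ (4 * (t : ℝ)) ^ (k + 1) * ((γ * K) ^ (k + 1) * W ρ') :=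
          mul_le_mul_of_nonneg_right hc hp
      _ = (4 * t * (γ * K)) ^ (k + 1) * W ρ' := by
          rw [← mul_assoc, ← mul_pow]
  refine (Finset.sum_le_sum fun ρ' _ => hin ρ').trans ?_
  rw [← Finset.mul_sum]

end

end Pool.Agent.Y616.QI
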